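import Pool.Agent.Lib.P300f36.Model

/-!
# A realtime pushdown automaton for `a^n b^n`
-/

namespace Pool.Agent.Lib.P300f36

/-- The states of the machine for `a^n b^n`. -/
inductive ABState where
  | up | down | done
  deriving DecidableEq

instance : Finite ABState :=
  Finite.of_surjective (fun i : Fin 3 => if i = 0 then ABState.up else
    if i = 1 then ABState.down else ABState.done) (by
      intro x
      cases x
      · exact ⟨0, rfl⟩
      · exact ⟨1, rfl⟩
      · exact ⟨2, rfl⟩)

/-- The moves of the machine for `a^n b^n`. -/
def abMoves : ABState → Option Bool → Option Unit → Set (ABState × StackOp Unit × Bool)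
  | .up, some true, _ => {(.up, .push (), true)}
  | .up, some false, some _ => {(.down, .pop, true)}
  | .up, none, none => {(.done, .keep, false)}
  | .down, some false, some _ => {(.down, .pop, true)}
  | .down, none, none => {(.done, .keep, false)}
  | _, _, _ => ∅

/-- The machine for `a^n b^n`. -/
abbrev abMachine : Machine Bool where
  State := ABState
  Sym := Unit
  finState := inferInstance
  finSym := inferInstance
  start := .up
  univ := fun _ => False
  accept := fun q => q = .done
  moves := abMoves

open Machine

theorem ab_nondet : abMachine.Nondeterministic := fun _ h => h

theorem ab_moves_stay {q q' : ABState} {a : Option Bool} {t : Option Unit} {op : StackOp Unit}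
    (h : (q', op, false) ∈ abMoves q a t) : q ≠ .done ∧ q' = .done ∧ op = .keep := by
  cases q <;> rcases a with _ | _ | _ <;> cases t <;> simp_all [abMoves]

theorem ab_moves_move {q q' : ABState} {a : Option Bool} {t : Option Unit} {op : StackOp Unit}
    (h : (q', op, true) ∈ abMoves q a t) : op = .push () ∨ op = .pop := by
  cases q <;> rcases a with _ | _ | _ <;> cases t <;> simp_all [abMoves]

theorem ab_realtime : abMachine.Realtime := by
  refine ⟨1, fun w n C _ h => ?_⟩
  by_contra hn
  push Not at hn
  obtain ⟨op, h0, -, -⟩ := h 0 (by omega)
  obtain ⟨op', h1, -, -⟩ := h 1 hn
  exact (ab_moves_stay h1).1 (ab_moves_stay h0).2.1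

theorem ab_inv {w : List Bool} {C : abMachine.Config} (h : abMachine.Reach w C) :
    C.stack.length + C.rest.length ≤ w.length := by
  induction h with
  | refl => simp [init]
  | @tail C D _ hs ih =>
    obtain ⟨b, op, hm, ha, hb⟩ := hs
    cases b with
    | false =>
      obtain ⟨-, -, rfl⟩ := ab_moves_stay hm
      simp only [StackOp.apply, Option.some.injEq] at ha
      simp only [Bool.false_eq_true, if_false] at hb
      rw [← ha, hb]
      exact ih
    | true =>
      simp only [if_true] at hb
      obtain ⟨a, hb⟩ := hb
      have hl : C.rest.length = D.rest.length + 1 := by rw [hb]; rfl
      rcases ab_moves_move hm with rfl | rfl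
      · simp only [StackOp.apply, Option.some.injEq] at ha
        rw [← ha, List.length_cons]
        omega
      · cases hC : C.stack with
        | nil => rw [hC] at ha; simp [StackOp.apply] at ha
        | cons c s =>
          rw [hC] at ha
          simp only [StackOp.apply, Option.some.injEq] at ha
          rw [hC, List.length_cons] at ih
          rw [← ha]
          omega

theorem ab_strong : abMachine.StrongBound fun n => (n : ℝ) := by
  intro w C hC
  have := ab_inv hC
  have h : C.stack.length ≤ w.length := by omega
  change (C.stack.length : ℝ) ≤ (w.length : ℝ)
  exact_mod_cast h

theorem ab_down (j : ℕ) (α : List Unit) :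
    abMachine.Accepting ⟨.down, List.replicate j false, α⟩ ↔ α.length = j := by
  induction j generalizing α with
  | zero =>
    constructor
    · intro h
      cases h with
      | leaf h1 _ => exact absurd h1 (by simp)
      | @exist _ D h1 h2 h3 =>
        obtain ⟨b, op, hm, ha, hb⟩ := h2
        cases α with
        | nil => rfl
        | cons c α => exact absurd hm (by simp [abMachine, abMoves])
      | all h1 _ _ => exact absurd h1 (by simp)
    · intro h
      obtain rfl : α = [] := List.length_eq_zero_iff.1 h
      refine .exist (D := ⟨.done, [], []⟩) (fun h => h) ⟨false, .keep, ?_, rfl, ?_⟩ (.leaf rfl rfl)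
      · simp [abMachine, abMoves]
      · simp
  | succ j ih =>
    constructor
    · intro h
      cases h with
      | leaf h1 _ => exact absurd h1 (by simp)
      | @exist _ D h1 h2 h3 =>
        obtain ⟨b, op, hm, ha, hb⟩ := h2
        obtain ⟨dq, dr, ds⟩ := D
        cases α with
        | nil => exact absurd hm (by simp [abMachine, abMoves, List.replicate_succ])
        | cons c α =>
          simp only [abMachine, abMoves, List.replicate_succ, List.head?_cons,
            Set.mem_singleton_iff, Prod.mk.injEq] at hm
          obtain ⟨rfl, rfl, rfl⟩ := hm
          simp only [StackOp.apply, Option.some.injEq] at ha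
          simp only [if_true, List.replicate_succ, List.cons.injEq] at hb
          obtain ⟨a, -, hb⟩ := hb
          subst ha hb
          simp only [List.length_cons]
          rw [(ih α).1 h3]
      | all h1 _ _ => exact absurd h1 (by simp)
    · intro h
      cases α with
      | nil => simp at h
      | cons c α =>
        refine .exist (D := ⟨.down, List.replicate j false, α⟩) (fun h => h)
          ⟨true, .pop, ?_, rfl, ?_⟩ ((ih α).2 (by simpa using h))
        · simp [abMachine, abMoves, List.replicate_succ]
        · simp [List.replicate_succ]

theorem ab_up (i j : ℕ) (α : List Unit) :
    abMachine.Accepting ⟨.up, List.replicate i true ++ List.replicate j false, α⟩ ↔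
      i + α.length = j := by
  induction i generalizing α with
  | zero =>
    simp only [List.replicate_zero, List.nil_append, zero_add]
    cases j with
    | zero =>
      constructor
      · intro h
        cases h with
        | leaf h1 _ => exact absurd h1 (by simp)
        | @exist _ D h1 h2 h3 =>
          obtain ⟨b, op, hm, ha, hb⟩ := h2
          cases α with
          | nil => rfl
          | cons c α => exact absurd hm (by simp [abMachine, abMoves])
        | all h1 _ _ => exact absurd h1 (by simp)
      · intro h
        obtain rfl : α = [] := List.length_eq_zero_iff.1 h
        refine .exist (D := ⟨.done, [], []⟩) (fun h => h) ⟨false, .keep, ?_, rfl, ?_⟩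
          (.leaf rfl rfl)
        · simp [abMachine, abMoves]
        · simp
    | succ j =>
      constructor
      · intro h
        cases h with
        | leaf h1 _ => exact absurd h1 (by simp)
        | @exist _ D h1 h2 h3 =>
          obtain ⟨b, op, hm, ha, hb⟩ := h2
          obtain ⟨dq, dr, ds⟩ := D
          cases α with
          | nil => exact absurd hm (by simp [abMachine, abMoves, List.replicate_succ])
          | cons c α =>
            simp only [abMachine, abMoves, List.replicate_succ, List.head?_cons,
              Set.mem_singleton_iff, Prod.mk.injEq] at hm
            obtain ⟨rfl, rfl, rfl⟩ := hm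
            simp only [StackOp.apply, Option.some.injEq] at ha
            simp only [if_true, List.replicate_succ, List.cons.injEq] at hb
            obtain ⟨a, -, hb⟩ := hb
            subst ha hb
            simp only [List.length_cons]
            rw [(ab_down j α).1 h3]
        | all h1 _ _ => exact absurd h1 (by simp)
      · intro h
        cases α with
        | nil => simp at h
        | cons c α =>
          refine .exist (D := ⟨.down, List.replicate j false, α⟩) (fun h => h)
            ⟨true, .pop, ?_, rfl, ?_⟩ ((ab_down j α).2 (by simpa using h))
          · simp [abMachine, abMoves, List.replicate_succ]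
          · simp [List.replicate_succ]
  | succ i ih =>
    constructor
    · intro h
      cases h with
      | leaf h1 _ => exact absurd h1 (by simp)
      | @exist _ D h1 h2 h3 =>
        obtain ⟨b, op, hm, ha, hb⟩ := h2
        obtain ⟨dq, dr, ds⟩ := D
        simp only [abMachine, abMoves, List.replicate_succ, List.cons_append, List.head?_cons,
          Set.mem_singleton_iff, Prod.mk.injEq] at hm
        obtain ⟨rfl, rfl, rfl⟩ := hm
        simp only [StackOp.apply, Option.some.injEq] at ha
        simp only [if_true, List.replicate_succ, List.cons_append, List.cons.injEq] at hb
        obtain ⟨a, -, hb⟩ := hb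
        subst ha hb
        have := (ih (() :: α)).1 h3
        simp only [List.length_cons] at this
        omega
      | all h1 _ _ => exact absurd h1 (by simp)
    · intro h
      refine .exist (D := ⟨.up, List.replicate i true ++ List.replicate j false, () :: α⟩)
        (fun h => h) ⟨true, .push (), ?_, rfl, ?_⟩ ((ih (() :: α)).2 ?_)
      · simp [abMachine, abMoves, List.replicate_succ]
      · simp [List.replicate_succ]
      · simp only [List.length_cons]; omega

theorem ab_nonregular : ¬ abMachine.language.IsRegular := by
  intro h
  have hfin := h.finite_range_leftQuotient
  have hmem : ∀ i j : ℕ, List.replicate j false ∈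
      abMachine.language.leftQuotient (List.replicate i true) ↔ i = j := by
    intro i j
    have := ab_up i j []
    rw [List.length_nil, add_zero] at this
    exact this
  have hinj : Function.Injective
      fun i : ℕ => abMachine.language.leftQuotient (List.replicate i true) := by
    intro i j hij
    have h1 : List.replicate j false ∈
        abMachine.language.leftQuotient (List.replicate j true) := (hmem j j).2 rfl
    have hij' : abMachine.language.leftQuotient (List.replicate i true) =
      abMachine.language.leftQuotient (List.replicate j true) := hij
    rw [← hij'] at h1
    exact (hmem i j).1 h1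
  exact Set.infinite_of_injective_forall_mem hinj (fun i => Set.mem_range_self _) hfin

end Pool.Agent.Lib.P300f36
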