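import Pool.Agent.Lib.P300f36.Model

/-!
# Runs of one-way pushdown automata: reading relation, ladders
-/

namespace Pool.Agent.Lib.P300f36.Machine

variable {A : Type} {M : Machine A}

/-- `Reads M q α x l q' α'`: from state `q` and store `α` the machine can read exactly `x` and
arrive at state `q'` and store `α'`, where `l` is the symbol scanned after `x`. -/
inductive Reads (M : Machine A) :
    M.State → List M.Sym → List A → Option A → M.State → List M.Sym → Prop
  | refl (q : M.State) (α : List M.Sym) (l : Option A) : Reads M q α [] l q α
  | stay {q q1 q' : M.State} {α α1 α' : List M.Sym} {x : List A} {l : Option A}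
      {op : StackOp M.Sym} : (q1, op, false) ∈ M.moves q (x.head?.or l) α.head? →
      op.apply α = some α1 → Reads M q1 α1 x l q' α' → Reads M q α x l q' α'
  | move {q q1 q' : M.State} {α α1 α' : List M.Sym} {a : A} {x : List A} {l : Option A}
      {op : StackOp M.Sym} : (q1, op, true) ∈ M.moves q (some a) α.head? →
      op.apply α = some α1 → Reads M q1 α1 x l q' α' → Reads M q α (a :: x) l q' α'

theorem Reads.trans {q q1 q2 : M.State} {α α1 α2 : List M.Sym} {x y : List A} {l : Option A}
    (h1 : Reads M q α x (y.head?.or l) q1 α1) (h2 : Reads M q1 α1 y l q2 α2) :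
    Reads M q α (x ++ y) l q2 α2 := by
  generalize hl : y.head?.or l = l' at h1
  induction h1 with
  | refl q α l' => simpa using h2
  | stay hm ha _ ih =>
    refine Reads.stay ?_ ha (ih h2 hl)
    rw [List.head?_append, Option.or_assoc, hl]
    exact hm
  | move hm ha _ ih =>
    exact Reads.move hm ha (ih h2 hl)

theorem reads_of_steps {C D : M.Config} (h : Relation.ReflTransGen M.Step C D) :
    ∃ x, C.rest = x ++ D.rest ∧ Reads M C.state C.stack x D.rest.head? D.state D.stack := by
  induction h using Relation.ReflTransGen.head_induction_on with
  | refl => exact ⟨[], rfl, Reads.refl _ _ _⟩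
  | head hs _ ih =>
    obtain ⟨x, hx, hr⟩ := ih
    obtain ⟨b, op, hm, ha, hb⟩ := hs
    cases b with
    | false =>
      simp only [Bool.false_eq_true, if_false] at hb
      refine ⟨x, by rw [← hx, hb], Reads.stay ?_ ha hr⟩
      rw [← List.head?_append, ← hx, hb]
      exact hm
    | true =>
      simp only [if_true] at hb
      obtain ⟨a, hb⟩ := hb
      refine ⟨a :: x, by rw [hb, hx]; rfl, Reads.move ?_ ha hr⟩
      rw [hb] at hm
      exact hm

theorem steps_of_reads {q q' : M.State} {α α' : List M.Sym} {x : List A} {l : Option A}
    (h : Reads M q α x l q' α') : ∀ y : List A, y.head? = l →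
    Relation.ReflTransGen M.Step ⟨q, x ++ y, α⟩ ⟨q', y, α'⟩ := by
  induction h with
  | refl q α l' => intro y _; exact Relation.ReflTransGen.refl
  | stay hm ha _ ih =>
    intro y hy
    refine Relation.ReflTransGen.head ⟨false, _, ?_, ha, ?_⟩ (ih y hy)
    · simp only [List.head?_append, hy]
      exact hm
    · simp
  | move hm ha _ ih =>
    intro y hy
    refine Relation.ReflTransGen.head ⟨true, _, ?_, ha, ?_⟩ (ih y hy)
    · simpa using hm
    · simp

/-- One step, as a reading relation, also valid above any other store. -/
theorem StackOp.apply_append {G : Type} {op : StackOp G} {δ τ : List G} (hδ : δ ≠ [])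
    {σ : List G} (h : op.apply (δ ++ σ) = some τ) :
    ∃ δ', τ = δ' ++ σ ∧ ∀ σ', op.apply (δ ++ σ') = some (δ' ++ σ') := by
  cases δ with
  | nil => exact absurd rfl hδ
  | cons d δ =>
    cases op with
    | keep =>
      simp only [StackOp.apply, Option.some.injEq] at h ⊢
      exact ⟨d :: δ, h.symm, fun σ' => rfl⟩
    | push g =>
      simp only [StackOp.apply, Option.some.injEq] at h ⊢
      exact ⟨g :: d :: δ, h.symm, fun σ' => rfl⟩
    | pop =>
      simp only [StackOp.apply, List.cons_append, Option.some.injEq] at h ⊢
      exact ⟨δ, h.symm, fun σ' => rfl⟩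

/-- `D` is reached from `C` by a computation that stays strictly above the store of `C`. -/
def Above (M : Machine A) (C D : M.Config) : Prop :=
  ∃ u δ, δ ≠ [] ∧ C.rest = u ++ D.rest ∧ D.stack = δ ++ C.stack ∧
    ∀ σ, σ.head? = C.stack.head? → Reads M C.state σ u D.rest.head? D.state (δ ++ σ)

/-- Appending one step to an `Above` computation. -/
theorem Above.step {C D E : M.Config} (h : Above M C D) (hs : M.Step D E)
    (hE : C.stack.length < E.stack.length) : Above M C E := by
  obtain ⟨u, δ, hδ, hu, hD, hR⟩ := h
  obtain ⟨b, op, hm, ha, hb⟩ := hs
  rw [hD] at ha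
  obtain ⟨δ', hδ', hop⟩ := StackOp.apply_append hδ ha
  have hne : δ' ≠ [] := by
    rintro rfl
    rw [hδ'] at hE
    simp at hE
  have htop : ∀ σ : List M.Sym, (δ ++ σ).head? = D.stack.head? := by
    intro σ
    rw [hD]
    cases δ with
    | nil => exact absurd rfl hδ
    | cons d δ => simp
  cases b with
  | false =>
    simp only [Bool.false_eq_true, if_false] at hb
    refine ⟨u, δ', hne, by rw [hb, hu], hδ', fun σ hσ => ?_⟩
    have h1 := hR σ hσ
    rw [← hb] at h1
    have h2 : Reads M D.state (δ ++ σ) [] E.rest.head? E.state (δ' ++ σ) := by
      refine Reads.stay ?_ (hop σ) (Reads.refl _ _ _)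
      rw [htop σ]
      simpa [hb] using hm
    simpa using Reads.trans (y := []) (by simpa using h1) h2
  | true =>
    simp only [if_true] at hb
    obtain ⟨a, hb⟩ := hb
    refine ⟨u ++ [a], δ', hne, by rw [hu, hb]; simp, hδ', fun σ hσ => ?_⟩
    have h1 := hR σ hσ
    have h2 : Reads M D.state (δ ++ σ) [a] E.rest.head? E.state (δ' ++ σ) := by
      refine Reads.move ?_ (hop σ) (Reads.refl _ _ _)
      rw [htop σ]
      simpa [hb] using hm
    refine Reads.trans ?_ h2
    simpa [hb] using h1

/-- A push step is an `Above` computation. -/
theorem Above.single {C D : M.Config} (hs : M.Step C D)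
    (hD : C.stack.length < D.stack.length) : Above M C D := by
  obtain ⟨b, op, hm, ha, hb⟩ := hs
  cases op with
  | keep =>
    simp only [StackOp.apply, Option.some.injEq] at ha
    rw [ha] at hD
    exact absurd hD (lt_irrefl _)
  | pop =>
    cases hC : C.stack with
    | nil => rw [hC] at ha; simp [StackOp.apply] at ha
    | cons c s =>
      rw [hC] at ha hD
      simp only [StackOp.apply, Option.some.injEq] at ha
      rw [ha] at hD
      simp at hD
  | push g =>
    simp only [StackOp.apply, Option.some.injEq] at ha
    cases b with
    | false =>
      simp only [Bool.false_eq_true, if_false] at hb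
      refine ⟨[], [g], by simp, by simp [hb], by simp [← ha], fun σ hσ => ?_⟩
      refine Reads.stay ?_ (op := .push g) (by simp [StackOp.apply]) (Reads.refl _ _ _)
      rw [hσ]
      simpa [hb] using hm
    | true =>
      simp only [if_true] at hb
      obtain ⟨a, hb⟩ := hb
      refine ⟨[a], [g], by simp, by simp [hb], by simp [← ha], fun σ hσ => ?_⟩
      refine Reads.move ?_ (op := .push g) (by simp [StackOp.apply]) (Reads.refl _ _ _)
      rw [hσ]
      simpa [hb] using hm

/-- The height changes by at most one in a step. -/
theorem Step.height {C D : M.Config} (hs : M.Step C D) :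
    D.stack.length ≤ C.stack.length + 1 ∧ C.stack.length ≤ D.stack.length + 1 := by
  obtain ⟨b, op, hm, ha, hb⟩ := hs
  cases op with
  | keep =>
    simp only [StackOp.apply, Option.some.injEq] at ha
    rw [ha]; omega
  | pop =>
    cases hC : C.stack with
    | nil => rw [hC] at ha; simp [StackOp.apply] at ha
    | cons c s =>
      rw [hC] at ha
      simp only [StackOp.apply, Option.some.injEq] at ha
      rw [ha]; simp; omega
  | push g =>
    simp only [StackOp.apply, Option.some.injEq] at ha
    rw [← ha]; simp only [List.length_cons]; omega

/-- For a configuration `C` reached on input `w` there are configurations of all smaller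
heights, each reached from the previous one by a computation strictly above it. -/
theorem ladder {w : List A} {C : M.Config} (h : M.Reach w C) :
    ∃ f : ℕ → M.Config, f C.stack.length = C ∧
      (∀ i ≤ C.stack.length, (f i).stack.length = i ∧ M.Reach w (f i)) ∧
      (∀ i j, i < j → j ≤ C.stack.length → Above M (f i) (f j)) := by
  induction h with
  | refl =>
    refine ⟨fun _ => M.init w, rfl, ?_, ?_⟩
    · intro i hi
      have : i = 0 := by simpa [init] using hi
      subst this
      exact ⟨rfl, Relation.ReflTransGen.refl⟩
    · intro i j hij hj
      have : j = 0 := by simpa [init] using hj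
      omega
  | @tail D E hD hs ih =>
    obtain ⟨f, hfD, hf, hab⟩ := ih
    have hE : M.Reach w E := Relation.ReflTransGen.tail hD hs
    have hh := Step.height hs
    refine ⟨Function.update f E.stack.length E, by simp, ?_, ?_⟩
    · intro i hi
      by_cases hiE : i = E.stack.length
      · subst hiE; simp [hE]
      · rw [Function.update_of_ne hiE]
        exact hf i (by omega)
    · intro i j hij hj
      have hiE : i ≠ E.stack.length := by omega
      rw [Function.update_of_ne hiE]
      by_cases hjE : j = E.stack.length
      · subst hjE
        rw [Function.update_self]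
        by_cases hiD : i = D.stack.length
        · subst hiD
          rw [hfD]
          exact Above.single hs hij
        · have h1 : Above M (f i) D := by
            have := hab i D.stack.length (by omega) le_rfl
            rwa [hfD] at this
          have h2 : (f i).stack.length = i := (hf i (by omega)).1
          exact h1.step hs (by omega)
      · rw [Function.update_of_ne hjE]
        exact hab i j hij (by omega)

end Pool.Agent.Lib.P300f36.Machine
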