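import Pool.Agent.Lib.P300f36.Basic

/-!
# Height-bounded acceptance, suffix types, and the doubly logarithmic lower bound
-/

namespace Pool.Agent.Lib.P300f36.Machine

open Asymptotics Filter

variable {A : Type} {M : Machine A}

/-- Accepting computation tree all of whose configurations have height at most `T`. -/
inductive AccIn (M : Machine A) (T : ℕ) : M.Config → Prop
  | leaf {C : M.Config} : M.accept C.state → C.rest = [] → C.stack.length ≤ T → AccIn M T C
  | exist {C D : M.Config} : ¬ M.univ C.state → C.stack.length ≤ T → M.Step C D →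
      AccIn M T D → AccIn M T C
  | all {C : M.Config} : M.univ C.state → C.stack.length ≤ T → (∃ D, M.Step C D) →
      (∀ D, M.Step C D → AccIn M T D) → AccIn M T C

theorem AccIn.accepting {T : ℕ} {C : M.Config} (h : AccIn M T C) : M.Accepting C := by
  induction h with
  | leaf h1 h2 _ => exact .leaf h1 h2
  | exist h1 _ h3 _ ih => exact .exist h1 h3 ih
  | all h1 _ h3 _ ih => exact .all h1 h3 ih

theorem AccIn.mono {T T' : ℕ} (hT : T ≤ T') {C : M.Config} (h : AccIn M T C) :
    AccIn M T' C := by
  induction h with
  | leaf h1 h2 h3 => exact .leaf h1 h2 (h3.trans hT)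
  | exist h1 h2 h3 _ ih => exact .exist h1 (h2.trans hT) h3 ih
  | all h1 h2 h3 _ ih => exact .all h1 (h2.trans hT) h3 ih

theorem AccIn.height {T : ℕ} {C : M.Config} (h : AccIn M T C) : C.stack.length ≤ T := by
  cases h <;> assumption

theorem accIn_of_accepting {T : ℕ} {C : M.Config} (h : M.Accepting C)
    (hT : ∀ D, Relation.ReflTransGen M.Step C D → D.stack.length ≤ T) : AccIn M T C := by
  induction h with
  | @leaf C h1 h2 => exact .leaf h1 h2 (hT C .refl)
  | @exist C D h1 h2 _ ih =>
    exact .exist h1 (hT C .refl) h2 (ih fun E hE => hT E (.head h2 hE))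
  | @all C h1 h2 _ ih =>
    exact .all h1 (hT C .refl) h2 fun D hD => ih D hD fun E hE => hT E (.head hD hE)

/-- Steps from a configuration whose scanned symbol is `a`. -/
theorem step_cons {q : M.State} {a : A} {z : List A} {α : List M.Sym} {D : M.Config}
    (h : M.Step ⟨q, a :: z, α⟩ D) :
    ∃ (b : Bool) (op : StackOp M.Sym), (D.state, op, b) ∈ M.moves q (some a) α.head? ∧
      op.apply α = some D.stack ∧ D.rest = (if b then z else a :: z) := by
  obtain ⟨b, op, hm, ha, hb⟩ := h
  refine ⟨b, op, by simpa using hm, ha, ?_⟩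
  cases b with
  | false => simpa using hb
  | true =>
    simp only [if_true, List.cons.injEq] at hb ⊢
    obtain ⟨a', _, h⟩ := hb
    exact h.symm

theorem step_cons_mk {q : M.State} {a : A} {z : List A} {α : List M.Sym} {b : Bool}
    {op : StackOp M.Sym} {q1 : M.State} {α1 : List M.Sym}
    (hm : (q1, op, b) ∈ M.moves q (some a) α.head?) (ha : op.apply α = some α1) :
    M.Step ⟨q, a :: z, α⟩ ⟨q1, if b then z else a :: z, α1⟩ := by
  refine ⟨b, op, by simpa using hm, ha, ?_⟩
  cases b <;> simp

theorem accIn_congr {T : ℕ} {y y' : List A}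
    (h : ∀ q α, AccIn M T ⟨q, y, α⟩ → AccIn M T ⟨q, y', α⟩) :
    ∀ (x : List A) (q : M.State) (α : List M.Sym),
      (AccIn M T ⟨q, x ++ y, α⟩ → AccIn M T ⟨q, x ++ y', α⟩) := by
  intro x
  induction x with
  | nil => exact h
  | cons a x ih =>
    intro q α hC
    generalize hCe : (⟨q, (a :: x) ++ y, α⟩ : M.Config) = C at hC
    induction hC generalizing q α with
    | leaf _ h2 _ =>
      subst hCe
      simp at h2
    | @exist C D h1 h2 h3 _ ihD =>
      subst hCe
      obtain ⟨b, op, hm, ha, hD⟩ := step_cons (z := x ++ y) h3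
      obtain ⟨ds, dr, dst⟩ := D
      refine .exist (D := ⟨ds, if b then x ++ y' else a :: (x ++ y'), dst⟩) h1 h2
        (step_cons_mk hm ha) ?_
      cases b with
      | false =>
        simp only [Bool.false_eq_true, if_false] at hD ⊢
        subst hD
        exact ihD ds dst rfl
      | true =>
        simp only [if_true] at hD ⊢
        subst hD
        exact ih ds dst (by assumption)
    | @all C h1 h2 h3 h4 ihD =>
      subst hCe
      refine .all h1 h2 ?_ ?_
      · obtain ⟨D, hD⟩ := h3
        obtain ⟨b, op, hm, ha, hD'⟩ := step_cons (z := x ++ y) hD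
        exact ⟨_, step_cons_mk hm ha⟩
      · intro D' hD'
        obtain ⟨b, op, hm, ha, hr⟩ := step_cons (z := x ++ y') hD'
        obtain ⟨ds, dr, dst⟩ := D'
        have hst : M.Step ⟨q, a :: (x ++ y), α⟩
            ⟨ds, if b then x ++ y else a :: (x ++ y), dst⟩ := step_cons_mk hm ha
        cases b with
        | false =>
          simp only [Bool.false_eq_true, if_false] at hr hst
          subst hr
          exact ihD _ hst ds dst rfl
        | true =>
          simp only [if_true] at hr hst
          subst hr
          exact ih ds dst (h4 _ hst)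

/-- The type of a suffix with respect to the height bound `T`. -/
def sufType (M : Machine A) (T : ℕ) (y : List A) : Set (M.State × (Fin T → Option M.Sym)) :=
  {p | ∃ α : List M.Sym, α.length ≤ T ∧ (p.2 = fun i : Fin T => α[(i : ℕ)]?) ∧ AccIn M T ⟨p.1, y, α⟩}

theorem accIn_of_sufType {T : ℕ} {y y' : List A} (h : sufType M T y = sufType M T y')
    (q : M.State) (α : List M.Sym) (hC : AccIn M T ⟨q, y, α⟩) : AccIn M T ⟨q, y', α⟩ := by
  have hα : α.length ≤ T := hC.height
  have h1 : (q, fun i : Fin T => α[(i : ℕ)]?) ∈ sufType M T y := ⟨α, hα, rfl, hC⟩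
  rw [h] at h1
  obtain ⟨α', hα', he, hC'⟩ := h1
  have : α = α' := by
    apply List.ext_getElem?
    intro i
    by_cases hi : i < T
    · exact congrFun he ⟨i, hi⟩
    · rw [List.getElem?_eq_none (by omega), List.getElem?_eq_none (by omega)]
  rw [this]
  exact hC'

theorem accIn_append_of_sufType {T : ℕ} {y y' : List A} (h : sufType M T y = sufType M T y')
    (x : List A) (q : M.State) (α : List M.Sym) :
    AccIn M T ⟨q, x ++ y, α⟩ ↔ AccIn M T ⟨q, x ++ y', α⟩ :=
  ⟨accIn_congr (accIn_of_sufType h) x q α, accIn_congr (accIn_of_sufType h.symm) x q α⟩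

/-- A machine all of whose accepted words are accepted within constant height recognises a
regular language. -/
theorem regular_of_accIn (T : ℕ) (h : ∀ w ∈ M.language, AccIn M T (M.init w)) :
    M.language.IsRegular := by
  have := M.finState
  have := M.finSym
  apply Language.IsRegular.of_finite_range_leftQuotient
  have hiff : ∀ w, w ∈ M.language ↔ AccIn M T (M.init w) :=
    fun w => ⟨h w, fun hw => hw.accepting⟩
  apply Set.Finite.subset (Set.finite_range
    (fun P : Set (Set (M.State × (Fin T → Option M.Sym))) =>
      ({y | sufType M T y ∈ P} : Language A)))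
  rintro _ ⟨x, rfl⟩
  refine ⟨{t | ∃ y, x ++ y ∈ M.language ∧ sufType M T y = t}, ?_⟩
  ext y
  constructor
  · rintro ⟨y', hy', ht⟩
    change x ++ y ∈ M.language
    rw [hiff]
    rw [hiff] at hy'
    exact (accIn_append_of_sufType ht x M.start []).1 hy'
  · intro hy
    exact ⟨y, hy, rfl⟩

/-- A shortest word accepted within height `T + 1` but not within height `T` has at most doubly
exponential length in `T`. -/
theorem length_of_shortest [Finite A] (T : ℕ) (w : List A) (h1 : AccIn M (T + 1) (M.init w))
    (h2 : ¬ AccIn M T (M.init w))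
    (hmin : ∀ v : List A, AccIn M (T + 1) (M.init v) → ¬ AccIn M T (M.init v) →
      w.length ≤ v.length) :
    w.length + 1 ≤ 2 ^ (2 * Nat.card M.State * (Nat.card M.Sym + 1) ^ (T + 1)) := by
  classical
  have := M.finState
  have := M.finSym
  have : Fintype M.State := Fintype.ofFinite _
  have : Fintype M.Sym := Fintype.ofFinite _
  let g : Fin (w.length + 1) → Set (M.State × (Fin (T + 1) → Option M.Sym)) ×
      Set (M.State × (Fin T → Option M.Sym)) :=
    fun i => (sufType M (T + 1) (w.drop i), sufType M T (w.drop i))
  have hinj : Function.Injective g := by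
    intro i j hij
    by_contra hne
    wlog hlt : i < j generalizing i j with H
    · exact H hij.symm (Ne.symm hne) (lt_of_le_of_ne (not_lt.1 hlt) (Ne.symm hne))
    have e1 : sufType M (T + 1) (w.drop i) = sufType M (T + 1) (w.drop j) :=
      congrArg Prod.fst hij
    have e2 : sufType M T (w.drop i) = sufType M T (w.drop j) := congrArg Prod.snd hij
    have hw : w.take i ++ w.drop i = w := List.take_append_drop _ _
    have a1 : AccIn M (T + 1) (M.init (w.take i ++ w.drop j)) := by
      refine (accIn_append_of_sufType e1 _ M.start []).1 ?_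
      rw [hw]
      exact h1
    have a2 : ¬ AccIn M T (M.init (w.take i ++ w.drop j)) := by
      intro h
      apply h2
      have := (accIn_append_of_sufType e2 _ M.start []).2 h
      rw [hw] at this
      exact this
    have := hmin _ a1 a2
    have hi := i.2
    have hj := j.2
    have hlt' : (i : ℕ) < j := hlt
    simp only [List.length_append, List.length_take, List.length_drop] at this
    omega
  have hcard := Nat.card_le_card_of_injective g hinj
  have hX : ∀ S : ℕ, Nat.card (Set (M.State × (Fin S → Option M.Sym))) =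
      2 ^ (Nat.card M.State * (Nat.card M.Sym + 1) ^ S) := by
    intro S
    simp [Nat.card_eq_fintype_card, Fintype.card_set]
  rw [Nat.card_prod, hX, hX, Nat.card_eq_fintype_card, Fintype.card_fin, ← pow_add] at hcard
  refine hcard.trans (Nat.pow_le_pow_right (by norm_num) ?_)
  have : (Nat.card M.Sym + 1) ^ T ≤ (Nat.card M.Sym + 1) ^ (T + 1) :=
    Nat.pow_le_pow_right (by omega) (by omega)
  have h3 := Nat.mul_le_mul_left (Nat.card M.State) this
  calc Nat.card M.State * (Nat.card M.Sym + 1) ^ (T + 1) +
        Nat.card M.State * (Nat.card M.Sym + 1) ^ T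
      ≤ Nat.card M.State * (Nat.card M.Sym + 1) ^ (T + 1) +
        Nat.card M.State * (Nat.card M.Sym + 1) ^ (T + 1) := by omega
    _ = 2 * Nat.card M.State * (Nat.card M.Sym + 1) ^ (T + 1) := by ring

/-- If `w` is accepted but not within height `T`, some computation on `w` exceeds `T`. -/
theorem exists_reach_gt {T : ℕ} {w : List A} (hw : w ∈ M.language)
    (h : ¬ AccIn M T (M.init w)) : ∃ C, M.Reach w C ∧ T < C.stack.length := by
  by_contra hcon
  push Not at hcon
  exact h (accIn_of_accepting hw hcon)

/-- **Doubly logarithmic lower bound.**  A one-way alternating pushdown automaton with a middle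
space bound `o(log log n)` recognises a regular language. -/
theorem regular_of_loglog [Finite A] {s : ℕ → ℝ} (hb : M.MiddleBound s)
    (hs : s =o[atTop] fun n => Real.log (Real.log (n : ℝ))) : M.language.IsRegular := by
  classical
  have := M.finState
  have := M.finSym
  set Q : ℕ := Nat.card M.State with hQ
  set G : ℕ := Nat.card M.Sym + 1 with hG
  have hQ1 : 1 ≤ Q := by
    have : Nonempty M.State := ⟨M.start⟩
    exact Nat.card_pos
  have hG1 : 1 ≤ G := by omega
  have hQr : (1 : ℝ) ≤ Q := by exact_mod_cast hQ1
  have hGr : (1 : ℝ) ≤ G := by exact_mod_cast hG1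
  have hlQ : 0 ≤ Real.log (2 * Q) := Real.log_nonneg (by linarith)
  have hlG : 0 ≤ Real.log G := Real.log_nonneg hGr
  set D : ℝ := 1 + Real.log (2 * Q) + Real.log G with hD
  have hDpos : 0 < D := by linarith
  have hc := hs.def (c := 1 / (2 * D)) (by positivity)
  rw [eventually_atTop] at hc
  obtain ⟨N, hN⟩ := hc
  -- a bound for `s` on short words
  obtain ⟨B, hB⟩ : ∃ B : ℕ, ∀ n < max N 3, s n < B := by
    obtain ⟨B, hB⟩ := exists_nat_gt (∑ n ∈ Finset.range (max N 3), |s n|)
    refine ⟨B, fun n hn => lt_of_le_of_lt ((le_abs_self _).trans ?_) hB⟩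
    exact Finset.single_le_sum (f := fun n => |s n|) (fun i _ => abs_nonneg _)
      (Finset.mem_range.2 hn)
  -- beyond `B`, no new words
  have key : ∀ T, B ≤ T → ∀ w : List A, AccIn M (T + 1) (M.init w) → AccIn M T (M.init w) := by
    intro T hT
    by_contra hcon
    push Not at hcon
    obtain ⟨w0, hw0⟩ := hcon
    -- take a shortest one
    let P : ℕ → Prop := fun n => ∃ w : List A, w.length = n ∧ AccIn M (T + 1) (M.init w) ∧
      ¬ AccIn M T (M.init w)
    have hP : ∃ n, P n := ⟨w0.length, w0, rfl, hw0.1, hw0.2⟩
    obtain ⟨w, hwl, hw1, hw2⟩ := Nat.find_spec hP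
    have hmin : ∀ v : List A, AccIn M (T + 1) (M.init v) → ¬ AccIn M T (M.init v) →
        w.length ≤ v.length := by
      intro v hv1 hv2
      rw [hwl]
      exact Nat.find_min' hP ⟨v, rfl, hv1, hv2⟩
    have hlen := length_of_shortest T w hw1 hw2 hmin
    rw [← hQ, ← hG] at hlen
    obtain ⟨C, hC, hCT⟩ := exists_reach_gt hw1.accepting hw2
    have hsw := hb w hw1.accepting C hC
    have hTs : (T : ℝ) + 1 ≤ s w.length := by
      have : ((T + 1 : ℕ) : ℝ) ≤ C.stack.length := by exact_mod_cast hCT
      push_cast at this
      linarith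
    have hBig : max N 3 ≤ w.length := by
      by_contra hlt
      have h1 := hB w.length (by omega)
      have h2 : (B : ℝ) ≤ T := by exact_mod_cast hT
      linarith
    have hNw : N ≤ w.length := le_trans (le_max_left _ _) hBig
    have h3w : 3 ≤ w.length := le_trans (le_max_right _ _) hBig
    have h3r : (3 : ℝ) ≤ w.length := by exact_mod_cast h3w
    -- real logarithms
    have hlogpos : 1 < Real.log w.length := by
      rw [Real.lt_log_iff_exp_lt (by linarith)]
      have := Real.exp_one_lt_d9
      linarith
    have hloglog : Real.log (Real.log w.length) ≤ Real.log (2 * Q) + (T + 1) * Real.log G := by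
      have e1 : (w.length : ℝ) ≤ 2 ^ (2 * Q * G ^ (T + 1)) := by
        have : w.length ≤ 2 ^ (2 * Q * G ^ (T + 1)) := by omega
        exact_mod_cast this
      have e2 : Real.log w.length ≤ (2 * Q * G ^ (T + 1) : ℕ) * Real.log 2 := by
        rw [← Real.log_pow]
        exact Real.log_le_log (by linarith) e1
      have e3 : Real.log w.length ≤ 2 * Q * (G : ℝ) ^ (T + 1) := by
        refine e2.trans ?_
        have hl2 : Real.log 2 ≤ 1 := by
          have := Real.log_two_lt_d9
          linarith
        push_cast
        have hpos : 0 ≤ 2 * (Q : ℝ) * (G : ℝ) ^ (T + 1) := by positivity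
        nlinarith
      calc Real.log (Real.log w.length) ≤ Real.log (2 * Q * (G : ℝ) ^ (T + 1)) :=
            Real.log_le_log (by linarith) e3
        _ = Real.log (2 * Q) + (T + 1) * Real.log G := by
            rw [Real.log_mul (by positivity) (by positivity), Real.log_pow]
            push_cast
            ring
    have hll0 : 0 ≤ Real.log (Real.log w.length) := Real.log_nonneg hlogpos.le
    have h4 := hN w.length hNw
    rw [Real.norm_eq_abs, Real.norm_eq_abs, abs_of_nonneg hll0] at h4
    have h5 : s w.length ≤ 1 / (2 * D) * (Real.log (2 * Q) + (T + 1) * Real.log G) :=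
      (le_abs_self _).trans (h4.trans (mul_le_mul_of_nonneg_left hloglog (by positivity)))
    have hT0 : (0 : ℝ) ≤ T := Nat.cast_nonneg T
    have h6 : Real.log (2 * Q) + (T + 1) * Real.log G ≤ (T + 1) * D := by
      rw [hD]
      nlinarith
    have h7 : 1 / (2 * D) * (Real.log (2 * Q) + (T + 1) * Real.log G) ≤ (T + 1) / 2 := by
      calc 1 / (2 * D) * (Real.log (2 * Q) + (T + 1) * Real.log G)
          ≤ 1 / (2 * D) * ((T + 1) * D) := mul_le_mul_of_nonneg_left h6 (by positivity)
        _ = (T + 1) / 2 := by field_simp
    linarith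
  have key2 : ∀ k, ∀ w : List A, AccIn M (B + k) (M.init w) → AccIn M B (M.init w) := by
    intro k
    induction k with
    | zero => intro w h; exact h
    | succ k ih => intro w h; exact ih w (key (B + k) (by omega) w h)
  refine regular_of_accIn B fun w hw => ?_
  have hacc : AccIn M (B + ⌈s w.length⌉₊) (M.init w) := by
    refine accIn_of_accepting hw fun D hD => ?_
    have h1 := hb w hw D hD
    have h2 : (D.stack.length : ℝ) ≤ ⌈s w.length⌉₊ := h1.trans (Nat.le_ceil _)
    have h3 : D.stack.length ≤ ⌈s w.length⌉₊ := by exact_mod_cast h2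
    omega
  exact key2 _ w hacc

end Pool.Agent.Lib.P300f36.Machine
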