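import Mathlib

/-!
# One-way pushdown automata and their pushdown space

The machine model (one-way alternating pushdown automata with a right endmarker), its
nondeterministic and realtime subclasses, and strong and middle pushdown space bounds.
-/

namespace Pool.Agent.Lib.P300f36

open Asymptotics Filter

/-- What one step of a machine does to its pushdown store. -/
inductive StackOp (G : Type) where
  /-- leave the store unchanged -/
  | keep : StackOp G
  /-- put one symbol on top -/
  | push (g : G) : StackOp G
  /-- remove the top symbol (impossible if the store is empty) -/
  | pop : StackOp G

/-- The effect of an operation on a store, whose top is the first entry of the list. -/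
def StackOp.apply {G : Type} : StackOp G → List G → Option (List G)
  | .keep, s => some s
  | .push g, s => some (g :: s)
  | .pop, [] => none
  | .pop, _ :: s => some s

/-- A one-way alternating pushdown automaton with input alphabet `A`.  It has finitely many
states and pushdown symbols.  A move depends on the state, on the scanned input symbol
(`none` is the right endmarker) and on the top pushdown symbol (`none` if the store is
empty).  The third component of a move is `true` when the input head moves one cell to the
right and `false` when it stays. -/
structure Machine (A : Type) where
  /-- the states -/
  State : Type
  /-- the pushdown symbols -/
  Sym : Type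
  finState : Finite State
  finSym : Finite Sym
  /-- the initial state -/
  start : State
  /-- the universal states; the other states are existential -/
  univ : State → Prop
  /-- the accepting states -/
  accept : State → Prop
  /-- the moves -/
  moves : State → Option A → Option Sym → Set (State × StackOp Sym × Bool)

namespace Machine

variable {A : Type}

/-- A configuration: the state, the part of the input from the scanned cell on (the empty list
when the head scans the right endmarker) and the pushdown store. -/
structure Config (M : Machine A) where
  /-- the state -/
  state : M.State
  /-- the unread input, whose first symbol is the scanned one -/
  rest : List A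
  /-- the pushdown store, top first -/
  stack : List M.Sym

variable (M : Machine A)

/-- The initial configuration on input `w`: initial state, nothing read, empty store. -/
def init (w : List A) : M.Config := ⟨M.start, w, []⟩

/-- `M.StepWith b C D`: one move leads from `C` to `D`, where `b` says whether the input head
moves right.  The head never moves left and never moves beyond the right endmarker. -/
def StepWith (b : Bool) (C D : M.Config) : Prop :=
  ∃ op : StackOp M.Sym, (D.state, op, b) ∈ M.moves C.state C.rest.head? C.stack.head? ∧
    op.apply C.stack = some D.stack ∧
    (if b then ∃ a, C.rest = a :: D.rest else D.rest = C.rest)

/-- One move leads from `C` to `D`. -/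
def Step (C D : M.Config) : Prop := ∃ b, M.StepWith b C D

/-- `C` occurs in some computation of `M` on input `w`. -/
def Reach (w : List A) (C : M.Config) : Prop := Relation.ReflTransGen M.Step (M.init w) C

/-- There is a finite accepting computation tree with root `C`: a leaf is a configuration with
an accepting state in which the whole input has been read; an inner node with an existential
state has one successor configuration as its child; an inner node with a universal state has
all its successor configurations, of which there is at least one, as its children. -/
inductive Accepting : M.Config → Prop
  | leaf {C : M.Config} : M.accept C.state → C.rest = [] → Accepting C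
  | exist {C D : M.Config} : ¬ M.univ C.state → M.Step C D → Accepting D → Accepting C
  | all {C : M.Config} : M.univ C.state → (∃ D, M.Step C D) →
      (∀ D, M.Step C D → Accepting D) → Accepting C

/-- The language recognised by `M`. -/
def language : Language A := {w | M.Accepting (M.init w)}

/-- `M` is nondeterministic: it has no universal states. -/
def Nondeterministic : Prop := ∀ q, ¬ M.univ q

/-- `M` is realtime: for some constant `c`, no computation on any input makes more than `c`
consecutive moves during which the head stays on the same input cell. -/
def Realtime : Prop :=
  ∃ c : ℕ, ∀ (w : List A) (n : ℕ) (C : ℕ → M.Config), M.Reach w (C 0) →
    (∀ i < n, M.StepWith false (C i) (C (i + 1))) → n ≤ c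

/-- `s` is a strong space bound of `M`: every computation on every input of length `n` has
pushdown height at most `s n`. -/
def StrongBound (s : ℕ → ℝ) : Prop :=
  ∀ (w : List A) (C : M.Config), M.Reach w C → (C.stack.length : ℝ) ≤ s w.length

/-- `s` is a middle space bound of `M`: every computation on every accepted input of length `n`
has pushdown height at most `s n`. -/
def MiddleBound (s : ℕ → ℝ) : Prop :=
  ∀ w ∈ M.language, ∀ C : M.Config, M.Reach w C → (C.stack.length : ℝ) ≤ s w.length

end Machine

/-- A class of machines over finite input alphabets. -/
abbrev MachineClass : Type 1 := ∀ A : Type, Machine A → Prop

/-- A space mode: which functions bound the space of a machine. -/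
abbrev SpaceMode : Type 1 := ∀ A : Type, Machine A → (ℕ → ℝ) → Prop

/-- one-way nondeterministic pushdown automata -/
def OnewayNPDA : MachineClass := fun _ M => M.Nondeterministic

/-- realtime nondeterministic pushdown automata -/
def RealtimeNPDA : MachineClass := fun _ M => M.Nondeterministic ∧ M.Realtime

/-- one-way alternating pushdown automata -/
def OnewayAPDA : MachineClass := fun _ _ => True

/-- realtime alternating pushdown automata -/
def RealtimeAPDA : MachineClass := fun _ M => M.Realtime

/-- the strong space mode -/
def Strong : SpaceMode := fun _ M s => M.StrongBound s

/-- the middle space mode -/
def Middle : SpaceMode := fun _ M s => M.MiddleBound s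

/-- `f` is a tight bound for the recognition of nonregular languages by machines of the class
`K` in the space mode `μ`: some nonregular language over a finite alphabet is recognised by a
machine of `K` in space `O(f n)`, and every language over a finite alphabet recognised by a
machine of `K` in space `o(f n)` is regular. -/
def TightBound (K : MachineClass) (μ : SpaceMode) (f : ℕ → ℝ) : Prop :=
  (∃ (A : Type) (_ : Finite A) (M : Machine A) (s : ℕ → ℝ),
      K A M ∧ μ A M s ∧ s =O[atTop] f ∧ ¬ M.language.IsRegular) ∧
  (∀ (A : Type) (_ : Finite A) (M : Machine A) (s : ℕ → ℝ),
      K A M → μ A M s → s =o[atTop] f → M.language.IsRegular)

end Pool.Agent.Lib.P300f36
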