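import Pool.Agent.Lib.P300f36.Classes

/-!
# Pumping: linear lower bounds for the strong mode and for nondeterministic middle mode
-/

namespace Pool.Agent.Lib.P300f36.Machine

open Asymptotics Filter

variable {A : Type} {M : Machine A}

/-- The `k`-fold repetition of a word. -/
def pow {B : Type} (u : List B) : ℕ → List B
  | 0 => []
  | k + 1 => u ++ pow u k

theorem pow_length {B : Type} (u : List B) (k : ℕ) : (pow u k).length = k * u.length := by
  induction k with
  | zero => simp [pow]
  | succ k ih => simp [pow, ih]; ring

theorem pow_comm {B : Type} (u : List B) (k : ℕ) : pow u k ++ u = u ++ pow u k := by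
  induction k with
  | zero => simp [pow]
  | succ k ih => simp only [pow, List.append_assoc, ih]

theorem pow_head {B : Type} {u : List B} {l : Option B} (h : u.head?.or l = l) (k : ℕ) :
    (pow u k).head?.or l = l := by
  induction k with
  | zero => simp [pow]
  | succ k ih => rw [pow, List.head?_append, Option.or_assoc, ih, h]

theorem pump_up {q : M.State} {g : Option M.Sym} {u : List A} {δ : List M.Sym} {l : Option A}
    (hl : u.head?.or l = l) (hδ : δ.head?.or g = g)
    (h : ∀ σ : List M.Sym, σ.head? = g → Reads M q σ u l q (δ ++ σ)) :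
    ∀ (k : ℕ) (σ : List M.Sym), σ.head? = g →
      Reads M q σ (pow u k) l q (pow δ k ++ σ) := by
  intro k
  induction k with
  | zero => intro σ _; exact Reads.refl _ _ _
  | succ k ih =>
    intro σ hσ
    have h1 : Reads M q σ u ((pow u k).head?.or l) q (δ ++ σ) := by
      rw [pow_head hl]
      exact h σ hσ
    have h2 := ih (δ ++ σ) (by rw [List.head?_append, hσ, hδ])
    have h3 := Reads.trans h1 h2
    rw [← List.append_assoc, pow_comm] at h3
    exact h3

theorem pump_down {p : M.State} {v : List A} {δ : List M.Sym} {l : Option A}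
    (hl : v.head?.or l = l) (h : ∀ σ : List M.Sym, Reads M p (δ ++ σ) v l p σ) :
    ∀ (k : ℕ) (σ : List M.Sym), Reads M p (pow δ k ++ σ) (pow v k) l p σ := by
  intro k
  induction k with
  | zero => intro σ; exact Reads.refl _ _ _
  | succ k ih =>
    intro σ
    have h1 : Reads M p (δ ++ (pow δ k ++ σ)) v ((pow v k).head?.or l) p (pow δ k ++ σ) := by
      rw [pow_head hl]
      exact h _
    have h2 := Reads.trans h1 (ih σ)
    rw [← List.append_assoc] at h2
    exact h2

/-- No function that is `o(n)` bounds heights growing linearly along an arithmetic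
progression of lengths. -/
theorem no_growth {s : ℕ → ℝ} (hs : s =o[atTop] fun n => (n : ℝ)) (a b : ℕ)
    (h : ∀ k : ℕ, (k : ℝ) ≤ s (a + k * b)) : False := by
  rcases Nat.eq_zero_or_pos b with rfl | hb
  · obtain ⟨k, hk⟩ := exists_nat_gt (s a)
    have := h k
    simp only [mul_zero, add_zero] at this
    linarith
  · have hbr : (0 : ℝ) < b := by exact_mod_cast hb
    have hb1 : (1 : ℝ) ≤ b := by exact_mod_cast hb
    have hc := hs.def (c := 1 / (2 * b)) (by positivity)
    rw [eventually_atTop] at hc
    obtain ⟨N, hN⟩ := hc
    set k : ℕ := N + a + 1 with hk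
    have h1 : N ≤ a + k * b := by nlinarith
    have h2 := hN _ h1
    have h3 := h k
    have h4 : s (a + k * b) ≤ 1 / (2 * b) * ((a + k * b : ℕ) : ℝ) := by
      refine (le_abs_self _).trans (h2.trans ?_)
      rw [Real.norm_of_nonneg (Nat.cast_nonneg _)]
    have h5 : (1 / (2 * b) * ((a + k * b : ℕ) : ℝ) : ℝ) = a / (2 * b) + k / 2 := by
      push_cast
      field_simp
    have h6 : (a : ℝ) / (2 * b) ≤ a / 2 := by
      apply div_le_div_of_nonneg_left (Nat.cast_nonneg _) (by norm_num) (by linarith)
    have h7 : (k : ℝ) = N + a + 1 := by rw [hk]; push_cast; ring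
    have h8 : (0 : ℝ) ≤ N := Nat.cast_nonneg N
    have h9 : (0 : ℝ) ≤ a := Nat.cast_nonneg a
    linarith

/-- What the machine sees: the state, the top of the store and the scanned symbol. -/
def view (C : M.Config) : M.State × Option M.Sym × Option A :=
  (C.state, C.stack.head?, C.rest.head?)

theorem head_or_eq {B : Type} {u y1 y2 : List B} (hu : y1 = u ++ y2)
    (h : y1.head? = y2.head?) : u.head?.or y2.head? = y2.head? := by
  rw [← h, hu, List.head?_append]
  cases u.head? <;> rfl

/-- If two configurations of a computation, the second above the first, look the same to the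
machine, then heights grow at least linearly along an arithmetic progression of lengths. -/
theorem reach_pump {w : List A} {C D : M.Config} (hC : M.Reach w C) (hab : Above M C D)
    (hv : view C = view D) :
    ∃ a b : ℕ, ∀ k : ℕ, ∃ (w' : List A) (E : M.Config), M.Reach w' E ∧
      w'.length = a + k * b ∧ k ≤ E.stack.length := by
  obtain ⟨u, δ, hδ, hu, hst, hR⟩ := hab
  simp only [view, Prod.mk.injEq] at hv
  obtain ⟨hq, ht, hl⟩ := hv
  obtain ⟨x, hx, hxR⟩ := reads_of_steps hC
  have hlu : u.head?.or D.rest.head? = D.rest.head? := head_or_eq hu hl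
  have hδh : δ.head?.or C.stack.head? = C.stack.head? := by
    rw [← List.head?_append, ← hst, ht]
  have hup := pump_up hlu hδh (q := C.state) (by
    intro σ hσ
    have := hR σ hσ
    rwa [← hq] at this)
  refine ⟨x.length + D.rest.length, u.length, fun k => ?_⟩
  refine ⟨x ++ (pow u k ++ D.rest), ⟨C.state, D.rest, pow δ k ++ C.stack⟩, ?_, ?_, ?_⟩
  · have h1 : Reads M M.start [] x ((pow u k).head?.or D.rest.head?) C.state C.stack := by
      rw [pow_head hlu, ← hl]
      exact hxR
    have h2 := Reads.trans h1 (hup k C.stack rfl)
    have h3 := steps_of_reads h2 D.rest rfl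
    rw [List.append_assoc] at h3
    exact h3
  · simp only [List.length_append, pow_length]; ring
  · simp only [List.length_append, pow_length]
    have : 1 ≤ δ.length := List.length_pos_of_ne_nil hδ
    nlinarith

theorem exists_height_bound [Finite A] {s : ℕ → ℝ} (hb : M.StrongBound s)
    (hs : s =o[atTop] fun n => (n : ℝ)) :
    ∃ K : ℕ, ∀ (w : List A) (C : M.Config), M.Reach w C → C.stack.length ≤ K := by
  classical
  have := M.finState
  have := M.finSym
  refine ⟨Nat.card (M.State × Option M.Sym × Option A), fun w C hC => ?_⟩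
  by_contra hlt
  push Not at hlt
  obtain ⟨f, -, hf, hab⟩ := ladder hC
  have : Fintype (M.State × Option M.Sym × Option A) := Fintype.ofFinite _
  obtain ⟨i, j, hne, hij⟩ := Fintype.exists_ne_map_eq_of_card_lt
    (fun i : Fin (C.stack.length + 1) => view (f i)) (by
      rw [Fintype.card_fin, ← Nat.card_eq_fintype_card]; omega)
  wlog hlt' : i < j generalizing i j with H
  · exact H j i hne.symm hij.symm (lt_of_le_of_ne (not_lt.1 hlt') hne.symm)
  have hi := i.2
  have hj := j.2
  obtain ⟨a, b, hab'⟩ := reach_pump (hf i (by omega)).2 (hab i j hlt' (by omega)) hij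
  refine no_growth hs a b fun k => ?_
  obtain ⟨w', E, hE, hl, hk⟩ := hab' k
  rw [← hl]
  refine le_trans ?_ (hb w' E hE)
  exact_mod_cast hk

/-- **Linear lower bound, strong mode.** -/
theorem regular_of_strong [Finite A] {s : ℕ → ℝ} (hb : M.StrongBound s)
    (hs : s =o[atTop] fun n => (n : ℝ)) : M.language.IsRegular := by
  obtain ⟨K, hK⟩ := exists_height_bound hb hs
  exact regular_of_accIn K fun w hw => accIn_of_accepting hw fun D hD => hK w D hD

/-- `E` is reached from `D` by a computation that never looks below the part of the store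
of `D` that it removes. -/
def DropTo (M : Machine A) (D E : M.Config) : Prop :=
  ∃ v δ, D.rest = v ++ E.rest ∧ D.stack = δ ++ E.stack ∧
    ∀ σ, Reads M D.state (δ ++ σ) v E.rest.head? E.state σ

theorem DropTo.refl (D : M.Config) : DropTo M D D :=
  ⟨[], [], rfl, rfl, fun _ => Reads.refl _ _ _⟩

theorem DropTo.head {C D E : M.Config} (hs : M.Step C D) (h : DropTo M D E)
    (hE : E.stack.length < C.stack.length) : DropTo M C E := by
  obtain ⟨v, δ, hv, hst, hR⟩ := h
  obtain ⟨b, op, hm, ha, hb⟩ := hs
  -- the part of the store of `C` above `E`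
  obtain ⟨τ, hτ, hop⟩ : ∃ τ, C.stack = τ ++ E.stack ∧
      ∀ σ, op.apply (τ ++ σ) = some (δ ++ σ) ∧ (τ ++ σ).head? = C.stack.head? := by
    rw [hst] at ha
    cases op with
    | keep =>
      simp only [StackOp.apply, Option.some.injEq] at ha
      refine ⟨δ, ha, fun σ => ⟨rfl, ?_⟩⟩
      rw [ha] at hE ⊢
      cases δ with
      | nil => simp at hE
      | cons d δ => rfl
    | push g =>
      simp only [StackOp.apply, Option.some.injEq] at ha
      cases δ with
      | nil =>
        rw [List.nil_append] at ha
        rw [← ha] at hE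
        simp at hE
      | cons d δ =>
        simp only [List.cons_append, List.cons.injEq] at ha
        obtain ⟨rfl, ha⟩ := ha
        refine ⟨δ, ha, fun σ => ⟨rfl, ?_⟩⟩
        rw [ha] at hE ⊢
        cases δ with
        | nil => simp at hE
        | cons d δ => rfl
    | pop =>
      cases hC : C.stack with
      | nil => rw [hC] at ha; simp [StackOp.apply] at ha
      | cons c t =>
        rw [hC] at ha
        simp only [StackOp.apply, Option.some.injEq] at ha
        refine ⟨c :: δ, by rw [ha]; rfl, fun σ => ⟨rfl, rfl⟩⟩
  cases b with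
  | false =>
    simp only [Bool.false_eq_true, if_false] at hb
    refine ⟨v, τ, by rw [← hb, hv], hτ, fun σ => ?_⟩
    refine Reads.stay ?_ (hop σ).1 (hR σ)
    rw [(hop σ).2, ← List.head?_append, ← hv, hb]
    exact hm
  | true =>
    simp only [if_true] at hb
    obtain ⟨a, hb⟩ := hb
    refine ⟨a :: v, τ, by rw [hb, hv]; rfl, hτ, fun σ => ?_⟩
    refine Reads.move ?_ (hop σ).1 (hR σ)
    rw [(hop σ).2]
    rw [hb] at hm
    exact hm

/-- The descending ladder: from a configuration `P` on the way to `F`, the configurations in
which the store has come down to a given height for the first time. -/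
theorem descent {P F : M.Config} (h : Relation.ReflTransGen M.Step P F) :
    ∃ g : ℕ → M.Config, g P.stack.length = P ∧
      (∀ i, F.stack.length ≤ i → i ≤ P.stack.length →
        (g i).stack.length = i ∧ Relation.ReflTransGen M.Step (g i) F) ∧
      (∀ i j, F.stack.length ≤ i → i ≤ j → j ≤ P.stack.length → DropTo M (g j) (g i)) := by
  induction h using Relation.ReflTransGen.head_induction_on with
  | refl =>
    refine ⟨fun _ => F, rfl, fun i h1 h2 => ⟨le_antisymm h1 h2, .refl⟩, fun i j _ _ _ => DropTo.refl _⟩
  | @head P P1 hs hF ih =>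
    obtain ⟨g, hgP, hg, hdr⟩ := ih
    have hh := Step.height hs
    refine ⟨Function.update g P.stack.length P, by simp, ?_, ?_⟩
    · intro i h1 h2
      by_cases hi : i = P.stack.length
      · subst hi
        simp only [Function.update_self]
        exact ⟨trivial, .head hs hF⟩
      · rw [Function.update_of_ne hi]
        exact hg i h1 (by omega)
    · intro i j h1 h2 h3
      by_cases hj : j = P.stack.length
      · subst hj
        rw [Function.update_self]
        by_cases hi : i = P.stack.length
        · subst hi
          rw [Function.update_self]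
          exact DropTo.refl _
        · rw [Function.update_of_ne hi]
          have h4 : DropTo M P1 (g i) := by
            have := hdr i P1.stack.length h1 (by omega) le_rfl
            rwa [hgP] at this
          refine h4.head hs ?_
          rw [(hg i h1 (by omega)).1]
          omega
      · rw [Function.update_of_ne hj, Function.update_of_ne (by omega)]
        exact hdr i j h1 h2 (by omega)

/-- A run within bounded height to an accepting configuration, without universal states. -/
theorem accIn_of_run (hM : M.Nondeterministic) {T : ℕ} {C F : M.Config}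
    (h : Relation.ReflTransGen M.Step C F) (hF : M.accept F.state) (hFr : F.rest = [])
    (hT : ∀ P, Relation.ReflTransGen M.Step C P → Relation.ReflTransGen M.Step P F →
      P.stack.length ≤ T) : AccIn M T C := by
  induction h using Relation.ReflTransGen.head_induction_on with
  | refl => exact .leaf hF hFr (hT F .refl .refl)
  | @head C D hs hDF ih =>
    exact .exist (hM _) (hT C .refl (.head hs hDF)) hs
      (ih fun P h1 h2 => hT P (.head hs h1) h2)

theorem run_of_accepting (hM : M.Nondeterministic) {C : M.Config} (h : M.Accepting C) :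
    ∃ F, Relation.ReflTransGen M.Step C F ∧ M.accept F.state ∧ F.rest = [] := by
  induction h with
  | @leaf C h1 h2 => exact ⟨C, .refl, h1, h2⟩
  | exist _ h2 _ ih =>
    obtain ⟨F, h3, h4, h5⟩ := ih
    exact ⟨F, .head h2 h3, h4, h5⟩
  | all h1 _ _ _ => exact absurd h1 (hM _)

theorem accepting_of_run (hM : M.Nondeterministic) {C F : M.Config}
    (h : Relation.ReflTransGen M.Step C F) (hF : M.accept F.state) (hFr : F.rest = []) :
    M.Accepting C := by
  induction h using Relation.ReflTransGen.head_induction_on with
  | refl => exact .leaf hF hFr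
  | head hs _ ih => exact .exist (hM _) hs ih

/-- Pumping an accepting run, first case: the two similar configurations are never left
downwards. -/
theorem accept_pump_up (hM : M.Nondeterministic) {w : List A} {C D F : M.Config}
    (hC : M.Reach w C) (hab : Above M C D) (hv : view C = view D)
    (hDF : Above M D F ∨ D = F) (hF : M.accept F.state) (hFr : F.rest = []) :
    ∃ a b : ℕ, ∀ k : ℕ, ∃ (w' : List A) (E : M.Config), w' ∈ M.language ∧ M.Reach w' E ∧
      w'.length = a + k * b ∧ k ≤ E.stack.length := by
  obtain ⟨u, δ, hδ, hu, hst, hR⟩ := hab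
  simp only [view, Prod.mk.injEq] at hv
  obtain ⟨hq, ht, hl⟩ := hv
  obtain ⟨x, hx, hxR⟩ := reads_of_steps hC
  have hlu : u.head?.or D.rest.head? = D.rest.head? := head_or_eq hu hl
  have hδh : δ.head?.or C.stack.head? = C.stack.head? := by
    rw [← List.head?_append, ← hst, ht]
  have hup := pump_up hlu hδh (q := C.state) (by
    intro σ hσ
    have := hR σ hσ
    rwa [← hq] at this)
  refine ⟨x.length + D.rest.length, u.length, fun k => ?_⟩
  have h1 : Reads M M.start [] x ((pow u k).head?.or D.rest.head?) C.state C.stack := by
    rw [pow_head hlu, ← hl]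
    exact hxR
  have h2 := Reads.trans h1 (hup k C.stack rfl)
  have h3 := steps_of_reads h2 D.rest rfl
  rw [List.append_assoc] at h3
  refine ⟨x ++ (pow u k ++ D.rest), ⟨C.state, D.rest, pow δ k ++ C.stack⟩, ?_, h3, ?_, ?_⟩
  · have htop : (pow δ k ++ C.stack).head? = D.stack.head? := by
      rw [List.head?_append, pow_head hδh, ht]
    have h4 : ∃ τ, Relation.ReflTransGen M.Step ⟨C.state, D.rest, pow δ k ++ C.stack⟩
        ⟨F.state, [], τ⟩ := by
      rcases hDF with hDF | rfl
      · obtain ⟨v, η, _, hv, _, hR'⟩ := hDF
        have h5 := steps_of_reads (hR' _ htop) F.rest rfl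
        rw [← hv, hFr, ← hq] at h5
        exact ⟨_, h5⟩
      · rw [hFr, hq]
        exact ⟨_, .refl⟩
    obtain ⟨τ, h4⟩ := h4
    exact accepting_of_run hM (Relation.ReflTransGen.trans h3 h4) hF rfl
  · simp only [List.length_append, pow_length]; ring
  · simp only [List.length_append, pow_length]
    have : 1 ≤ δ.length := List.length_pos_of_ne_nil hδ
    nlinarith

theorem append_eq_of_length {B : Type} {a b c d : List B} (h : a ++ b = c ++ d)
    (hl : b.length = d.length) : a = c ∧ b = d := by
  have h1 : a.length = c.length := by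
    have := congrArg List.length h
    simp only [List.length_append] at this
    omega
  exact List.append_inj h h1

/-- Pumping an accepting run, second case: both similar configurations are left downwards. -/
theorem accept_pump_both (hM : M.Nondeterministic) {w : List A} {C D P C' D' F : M.Config}
    (hC : M.Reach w C) (hab : Above M C D) (hv : view C = view D)
    (hDP : Above M D P ∨ D = P) (hPD : DropTo M P D') (hDC : DropTo M D' C')
    (hsD : D'.stack.length = D.stack.length) (hsC : C'.stack.length = C.stack.length)
    (hv' : D'.state = C'.state ∧ D'.rest.head? = C'.rest.head?)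
    (hCF : Relation.ReflTransGen M.Step C' F) (hF : M.accept F.state) (hFr : F.rest = []) :
    ∃ a b : ℕ, ∀ k : ℕ, ∃ (w' : List A) (E : M.Config), w' ∈ M.language ∧ M.Reach w' E ∧
      w'.length = a + k * b ∧ k ≤ E.stack.length := by
  obtain ⟨u, δ, hδ, hu, hst, hR⟩ := hab
  simp only [view, Prod.mk.injEq] at hv
  obtain ⟨hq, ht, hl⟩ := hv
  obtain ⟨hq', hl'⟩ := hv'
  obtain ⟨x, hx, hxR⟩ := reads_of_steps hC
  -- the middle part, from `D` to `D'`
  obtain ⟨m, hm, hDst, hmid⟩ : ∃ m, D.rest = m ++ D'.rest ∧ D'.stack = D.stack ∧
      ∀ σ : List M.Sym, σ.head? = D.stack.head? →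
        Reads M D.state σ m D'.rest.head? D'.state σ := by
    obtain ⟨v2, η2, hv2, hs2, hR2⟩ := hPD
    rcases hDP with hDP | rfl
    · obtain ⟨v1, η1, _, hv1, hs1, hR1⟩ := hDP
      have h1 := append_eq_of_length (hs1.symm.trans hs2) hsD.symm
      refine ⟨v1 ++ v2, by rw [hv1, hv2, List.append_assoc], h1.2.symm, fun σ hσ => ?_⟩
      refine Reads.trans (q1 := P.state) (α1 := η1 ++ σ) ?_ ?_
      · rw [← List.head?_append, ← hv2]
        exact hR1 σ hσ
      · rw [h1.1]
        exact hR2 σ
    · have h1 := append_eq_of_length (a := []) (b := D.stack) hs2 hsD.symm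
      refine ⟨v2, hv2, h1.2.symm, fun σ _ => ?_⟩
      have := hR2 σ
      rw [← h1.1] at this
      exact this
  -- the descending part, from `D'` to `C'`
  obtain ⟨v, δ', hv3, hs3, hR3⟩ := hDC
  have h2 := append_eq_of_length (hst.symm.trans (hDst.symm.trans hs3)) hsC.symm
  obtain ⟨rfl, hCC⟩ := h2
  obtain ⟨z, hz, hzR⟩ := reads_of_steps hCF
  have hlu : u.head?.or D.rest.head? = D.rest.head? := head_or_eq hu hl
  have hlv : v.head?.or C'.rest.head? = C'.rest.head? := head_or_eq hv3 hl'
  have hδh : δ.head?.or C.stack.head? = C.stack.head? := by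
    rw [← List.head?_append, ← hst, ht]
  have hup := pump_up hlu hδh (q := C.state) (by
    intro σ hσ
    have := hR σ hσ
    rwa [← hq] at this)
  have hdown := pump_down hlv (p := D'.state) (δ := δ) (by
    intro σ
    have := hR3 σ
    rwa [← hq'] at this)
  refine ⟨x.length + m.length + C'.rest.length, u.length + v.length, fun k => ?_⟩
  -- scanned symbols
  have l3 : ((pow v k).head?.or C'.rest.head?) = D'.rest.head? := by
    rw [pow_head hlv, hl']
  have l2 : (m.head?.or ((pow v k).head?.or C'.rest.head?)) = D.rest.head? := by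
    rw [l3, ← List.head?_append, ← hm]
  have h1 : Reads M M.start [] x
      ((pow u k ++ (m ++ (pow v k ++ C'.rest))).head?) C.state C.stack := by
    simp only [List.head?_append]
    rw [l2, pow_head hlu, ← hl]
    exact hxR
  have s1 := steps_of_reads h1 _ rfl
  have h2 : Reads M C.state C.stack (pow u k) ((m ++ (pow v k ++ C'.rest)).head?) C.state
      (pow δ k ++ C.stack) := by
    simp only [List.head?_append]
    rw [l2]
    exact hup k C.stack rfl
  have s2 := steps_of_reads h2 _ rfl
  have htop : (pow δ k ++ C.stack).head? = D.stack.head? := by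
    rw [List.head?_append, pow_head hδh, ht]
  have h3 : Reads M C.state (pow δ k ++ C.stack) m ((pow v k ++ C'.rest).head?) D'.state
      (pow δ k ++ C.stack) := by
    rw [List.head?_append, l3, hq]
    exact hmid _ htop
  have s3 := steps_of_reads h3 _ rfl
  have s4 := steps_of_reads (hdown k C.stack) C'.rest rfl
  have s5 : Relation.ReflTransGen M.Step ⟨D'.state, C'.rest, C.stack⟩ F := by
    rw [hCC, hq']
    exact hCF
  refine ⟨x ++ (pow u k ++ (m ++ (pow v k ++ C'.rest))),
    ⟨C.state, m ++ (pow v k ++ C'.rest), pow δ k ++ C.stack⟩, ?_, s1.trans s2, ?_, ?_⟩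
  · exact accepting_of_run hM (((s1.trans s2).trans s3).trans (s4.trans s5)) hF hFr
  · simp only [List.length_append, pow_length]; ring
  · simp only [List.length_append, pow_length]
    have : 1 ≤ δ.length := List.length_pos_of_ne_nil hδ
    nlinarith

/-- **Linear lower bound, middle mode, nondeterministic machines.** -/
theorem regular_of_middle_nondet [Finite A] (hM : M.Nondeterministic) {s : ℕ → ℝ}
    (hb : M.MiddleBound s) (hs : s =o[atTop] fun n => (n : ℝ)) : M.language.IsRegular := by
  classical
  have := M.finState
  have := M.finSym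
  let V := M.State × Option M.Sym × Option A
  let V2 := V × M.State × Option A
  have : Fintype V := Fintype.ofFinite _
  have : Fintype V2 := Fintype.ofFinite _
  refine regular_of_accIn (Fintype.card V + Fintype.card V2) fun w hw => ?_
  obtain ⟨F, hCF, hF, hFr⟩ := run_of_accepting hM hw
  -- a contradiction arises from any pumpable accepting run
  have contra : (∃ a b : ℕ, ∀ k : ℕ, ∃ (w' : List A) (E : M.Config), w' ∈ M.language ∧
      M.Reach w' E ∧ w'.length = a + k * b ∧ k ≤ E.stack.length) → False := by
    rintro ⟨a, b, hab⟩
    refine no_growth hs a b fun k => ?_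
    obtain ⟨w', E, hw', hE, hl, hk⟩ := hab k
    rw [← hl]
    refine le_trans ?_ (hb w' hw' E hE)
    exact_mod_cast hk
  by_contra hcon
  obtain ⟨P, hP, hPF, hPT⟩ : ∃ P, M.Reach w P ∧ Relation.ReflTransGen M.Step P F ∧
      Fintype.card V + Fintype.card V2 < P.stack.length := by
    by_contra h
    push Not at h
    exact hcon (accIn_of_run hM hCF hF hFr h)
  by_cases hFh : Fintype.card V ≤ F.stack.length
  · -- the final store is high
    obtain ⟨f, hfF, hf, hab⟩ := ladder (hP.trans hPF)
    obtain ⟨i, j, hne, hij⟩ := Fintype.exists_ne_map_eq_of_card_lt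
      (fun i : Fin (F.stack.length + 1) => (view (f i) : V)) (by
        rw [Fintype.card_fin]; exact Nat.lt_succ_of_le hFh)
    wlog hlt' : i < j generalizing i j with H
    · exact H j i hne.symm hij.symm (lt_of_le_of_ne (not_lt.1 hlt') hne.symm)
    have hi := i.2
    have hj := j.2
    refine contra (accept_pump_up hM (hf i (by omega)).2 (hab i j hlt' (by omega)) hij
      (F := F) ?_ hF hFr)
    by_cases hjF : (j : ℕ) = F.stack.length
    · right
      rw [hjF, hfF]
    · left
      have := hab j F.stack.length (by omega) le_rfl
      rwa [hfF] at this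
  · -- the final store is low
    push Not at hFh
    obtain ⟨f, hfP, hf, hab⟩ := ladder hP
    obtain ⟨g, hgP, hg, hdr⟩ := descent hPF
    let lev : Fin (P.stack.length - F.stack.length + 1) → ℕ := fun i => F.stack.length + i
    have hcard2 : Fintype.card V2 < P.stack.length - F.stack.length + 1 := by omega
    obtain ⟨i, j, hne, hij⟩ := Fintype.exists_ne_map_eq_of_card_lt
      (fun i : Fin (P.stack.length - F.stack.length + 1) =>
        ((view (f (lev i)), (g (lev i)).state, (g (lev i)).rest.head?) : V2)) (by
        rw [Fintype.card_fin]; exact hcard2)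
    wlog hlt' : i < j generalizing i j with H
    · exact H j i hne.symm hij.symm (lt_of_le_of_ne (not_lt.1 hlt') hne.symm)
    have hi := i.2
    have hj := j.2
    have hlt2 : (i : ℕ) < j := hlt'
    simp only [Prod.mk.injEq] at hij
    have hil : lev i ≤ P.stack.length := by simp only [lev]; omega
    have hjl : lev j ≤ P.stack.length := by simp only [lev]; omega
    have hil' : F.stack.length ≤ lev i := by simp only [lev]; omega
    have hjl' : F.stack.length ≤ lev j := by simp only [lev]; omega
    have hlev : lev i < lev j := by simp only [lev]; omega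
    refine contra (accept_pump_both hM (P := P) (C' := g (lev i)) (D' := g (lev j)) (F := F)
      (hf (lev i) hil).2 (hab _ _ hlev hjl) hij.1 ?_ ?_ (hdr _ _ hil' hlev.le hjl) ?_ ?_
      ⟨hij.2.1.symm, hij.2.2.symm⟩ (hg _ hil' hil).2 hF hFr)
    · by_cases hjP : lev j = P.stack.length
      · right
        rw [hjP, hfP]
      · left
        have := hab (lev j) P.stack.length (by omega) le_rfl
        rwa [hfP] at this
    · have := hdr (lev j) P.stack.length hjl' hjl le_rfl
      rwa [hgP] at this
    · rw [(hg _ hjl' hjl).1, (hf _ hjl).1]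
    · rw [(hg _ hil' hil).1, (hf _ hil).1]

end Pool.Agent.Lib.P300f36.Machine
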