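import Pool.Agent.Lib.P300f36.Zimin

/-!
# The doubly logarithmic upper bound
-/

namespace Pool.Agent.Lib.P300f36

open Machine Asymptotics Filter

/-- The word made of a sequence of blocks. -/
def enc : List (List Bool) → List Letter
  | [] => []
  | b :: bs => b.map Letter.bit ++ Letter.sep :: enc bs

theorem enc_injective : ∀ bs bs' : List (List Bool), enc bs = enc bs' → bs = bs' := by
  intro bs
  induction bs with
  | nil =>
    intro bs' h
    cases bs' with
    | nil => rfl
    | cons b bs' =>
      have := congrArg List.length h
      simp [enc] at this
  | cons b bs ih =>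
    intro bs' h
    cases bs' with
    | nil =>
      have := congrArg List.length h
      simp [enc] at this
    | cons b' bs' =>
      have h1 : Block (enc (b :: bs)) b (enc bs) := rfl
      have h2 : Block (enc (b :: bs)) b' (enc bs') := h
      obtain ⟨rfl, h3⟩ := h1.unique h2
      rw [ih bs' h3]

theorem length_enc (bs : List (List Bool)) : bs.length ≤ (enc bs).length := by
  induction bs with
  | nil => simp
  | cons b bs ih => simp only [enc, List.length_append, List.length_cons]; omega

/-- The monitor on a sequence of comparison results. -/
def run : Bool → List Ordering → Option Bool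
  | s, [] => some s
  | s, c :: cs => (mon s c).bind fun s' => run s' cs

theorem run_append (s : Bool) (l l' : List Ordering) :
    run s (l ++ l') = (run s l).bind fun t => run t l' := by
  induction l generalizing s with
  | nil => rfl
  | cons c l ih =>
    simp only [List.cons_append, run]
    cases mon s c with
    | none => rfl
    | some t => simp [ih]

theorem run_count {s t : Bool} {l : List Ordering} (h : run s l = some t) :
    l.count .eq + s.toNat = l.count .gt + t.toNat := by
  induction l generalizing s with
  | nil =>
    simp only [run, Option.some.injEq] at h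
    subst h
    simp
  | cons c l ih =>
    simp only [run] at h
    cases hc : mon s c with
    | none => rw [hc] at h; simp at h
    | some s' =>
      rw [hc] at h
      simp only [Option.bind_some] at h
      have := ih h
      cases s <;> cases c <;> simp [mon] at hc <;> subst hc <;>
        simp [List.count_cons] at this ⊢ <;> omega

theorem z_main (s : Bool) (n : ℕ) : ∀ (rest : List Letter) (u : List Bool), rest.length ≤ n →
    (zMachine.Accepting ⟨.main s, rest, u⟩ ↔ ∃ bs, rest = enc bs ∧
      (∀ b ∈ bs, b.length = u.length) ∧ run s (bs.map fun b => cmpFold .eq b u) = some true) := by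
  induction n generalizing s with
  | zero =>
    intro rest u hn
    obtain rfl : rest = [] := List.length_eq_zero_iff.1 (by omega)
    rw [z_main_nil]
    constructor
    · rintro rfl
      exact ⟨[], rfl, by simp, rfl⟩
    · rintro ⟨bs, hbs, -, hr⟩
      cases bs with
      | nil => simpa [run] using hr
      | cons b bs => simp [enc] at hbs
  | succ n ih =>
    intro rest u hn
    cases rest with
    | nil =>
      rw [z_main_nil]
      constructor
      · rintro rfl
        exact ⟨[], rfl, by simp, rfl⟩
      · rintro ⟨bs, hbs, -, hr⟩
        cases bs with
        | nil => simpa [run] using hr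
        | cons b bs => simp [enc] at hbs
    | cons a rest =>
      rw [z_main_cons]
      constructor
      · rintro ⟨b, rest', s', hb, hl, hc, hA⟩
        have hlen : rest'.length ≤ n := by
          have := congrArg List.length hb
          simp only [List.length_cons, List.length_append, List.length_map] at this hn
          omega
        obtain ⟨bs, rfl, h1, h2⟩ := (ih s' rest' u hlen).1 hA
        refine ⟨b :: bs, hb, ?_, ?_⟩
        · intro x hx
          rcases List.mem_cons.1 hx with rfl | hx
          · exact hl
          · exact h1 x hx
        · simp [run, hc, h2]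
      · rintro ⟨bs, hbs, h1, h2⟩
        cases bs with
        | nil => simp [enc] at hbs
        | cons b bs =>
          have hb : Block (a :: rest) b (enc bs) := hbs
          simp only [List.map_cons, run] at h2
          cases hc : mon s (cmpFold .eq b u) with
          | none => rw [hc] at h2; simp at h2
          | some s' =>
            rw [hc] at h2
            have hlen : (enc bs).length ≤ n := by
              have := congrArg List.length hb
              simp only [List.length_cons, List.length_append, List.length_map] at this hn
              omega
            refine ⟨b, enc bs, s', hb, h1 b (by simp), hc, (ih s' _ u hlen).2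
              ⟨bs, rfl, fun x hx => h1 x (by simp [hx]), by simpa using h2⟩⟩

/-- The accepted words. -/
theorem z_language (w : List Letter) : w ∈ zMachine.language ↔
    ∃ (b : List Bool) (bs : List (List Bool)), w = enc (b :: bs) ∧
      ∀ v : List Bool, v.length = b.length → (∀ x ∈ bs, x.length = v.length) ∧
        run false (bs.map fun x => cmpFold .eq x v) = some true := by
  have h0 : w ∈ zMachine.language ↔ zMachine.Accepting ⟨.init, w, []⟩ := Iff.rfl
  rw [h0, z_init]
  constructor
  · rintro ⟨b, rest', hb, h⟩
    have h1 := fun v hv => (z_main false _ rest' (v ++ []) le_rfl).1 (h v hv)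
    obtain ⟨bs, hbs, h2, h3⟩ := h1 b rfl
    refine ⟨b, bs, by rw [enc, ← hbs]; exact hb, fun v hv => ?_⟩
    obtain ⟨bs', hbs', h4, h5⟩ := h1 v hv
    obtain rfl := enc_injective _ _ (hbs.symm.trans hbs')
    simp only [List.append_nil] at h4 h5
    exact ⟨h4, h5⟩
  · rintro ⟨b, bs, rfl, h⟩
    refine ⟨b, enc bs, rfl, fun v hv => (z_main false _ _ _ le_rfl).2 ⟨bs, rfl, ?_, ?_⟩⟩
    · simpa using (h v hv).1
    · simpa using (h v hv).2

/-- The value of a bit string, most significant bit first. -/
def val : List Bool → ℕ
  | [] => 0
  | b :: bs => b.toNat * 2 ^ bs.length + val bs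

theorem val_lt (b : List Bool) : val b < 2 ^ b.length := by
  induction b with
  | nil => simp [val]
  | cons a b ih =>
    simp only [val, List.length_cons, pow_succ]
    cases a <;> simp <;> omega

theorem compare_val {b t : Bool} {bs ts : List Bool} (h : bs.length = ts.length) :
    compare (val (b :: bs)) (val (t :: ts)) =
      (compare b t).then (compare (val bs) (val ts)) := by
  have h1 := val_lt bs
  have h2 := val_lt ts
  rw [← h] at h2
  cases b <;> cases t
  · simp [val]
  · have h3 : compare false true = Ordering.lt := rfl
    rw [h3]
    simp only [val, Bool.toNat_false, Bool.toNat_true, Ordering.then, ← h]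
    rw [Nat.compare_eq_lt]
    omega
  · have h3 : compare true false = Ordering.gt := rfl
    rw [h3]
    simp only [val, Bool.toNat_false, Bool.toNat_true, Ordering.then, ← h]
    rw [Nat.compare_eq_gt]
    omega
  · have h3 : compare true true = Ordering.eq := rfl
    rw [h3]
    simp only [val, Bool.toNat_true, Ordering.then, ← h]
    rcases lt_trichotomy (val bs) (val ts) with h4 | h4 | h4
    · rw [Nat.compare_eq_lt.2 h4, Nat.compare_eq_lt]; omega
    · rw [h4, show compare (val ts) (val ts) = Ordering.eq from Nat.compare_eq_eq.2 rfl]
      exact Nat.compare_eq_eq.2 rfl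
    · rw [Nat.compare_eq_gt.2 h4, Nat.compare_eq_gt]; omega

theorem cmpFold_eq (r : Ordering) (b t : List Bool) (h : b.length = t.length) :
    cmpFold r b t = r.then (compare (val b) (val t)) := by
  induction b generalizing r t with
  | nil =>
    cases t with
    | nil => cases r <;> rfl
    | cons x t => simp at h
  | cons y b ih =>
    cases t with
    | nil => simp at h
    | cons x t =>
      have h' : b.length = t.length := by simpa using h
      rw [cmpFold, ih _ _ h', compare_val h', Ordering.then_assoc]

/-- The string of length `k` with value `n`. -/
def bits : ℕ → ℕ → List Bool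
  | 0, _ => []
  | k + 1, n => if 2 ^ k ≤ n then true :: bits k (n - 2 ^ k) else false :: bits k n

theorem bits_length (k n : ℕ) : (bits k n).length = k := by
  induction k generalizing n with
  | zero => rfl
  | succ k ih => simp only [bits]; split_ifs <;> simp [ih]

theorem val_bits (k n : ℕ) (h : n < 2 ^ k) : val (bits k n) = n := by
  induction k generalizing n with
  | zero => simp only [pow_zero, Nat.lt_one_iff] at h; subst h; rfl
  | succ k ih =>
    simp only [bits]
    rw [pow_succ] at h
    split_ifs with h1
    · rw [val, bits_length, ih _ (by omega)]; simp; omega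
    · rw [val, ih _ (by omega)]; simp

theorem countP_split (f : List Bool → ℕ) (n : ℕ) (bs : List (List Bool)) :
    (bs.countP fun x => decide (n ≤ f x)) =
      (bs.countP fun x => decide (f x = n)) + bs.countP fun x => decide (n + 1 ≤ f x) := by
  induction bs with
  | nil => rfl
  | cons x bs ih =>
    simp only [List.countP_cons, ih, decide_eq_true_eq]
    split_ifs <;> omega

/-- **Many blocks.**  If all blocks have length `k` and the comparison sequences with all
strings of length `k` have the required form then there are at least `2 ^ 2 ^ k - 1` blocks. -/
theorem many_blocks (k : ℕ) (bs : List (List Bool))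
    (h : ∀ v : List Bool, v.length = k → (∀ x ∈ bs, x.length = v.length) ∧
      run false (bs.map fun x => cmpFold .eq x v) = some true) :
    2 ^ 2 ^ k ≤ bs.length + 1 := by
  -- numbers of blocks of value at least `n`
  let c : ℕ → ℕ := fun n => bs.countP fun x => decide (n ≤ val x)
  have hc : ∀ n < 2 ^ k, c n = 2 * c (n + 1) + 1 := by
    intro n hn
    obtain ⟨hl, hr⟩ := h (bits k n) (bits_length k n)
    have hcnt := run_count hr
    rw [bits_length] at hl
    have h1 : (bs.map fun x => cmpFold .eq x (bits k n)).count .eq =
        bs.countP fun x => decide (val x = n) := by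
      rw [List.count, List.countP_map]
      apply List.countP_congr
      intro x hx
      rw [Function.comp_apply, cmpFold_eq _ _ _ (by rw [hl x hx, bits_length]), val_bits k n hn]
      simp [Ordering.then]
    have h2 : (bs.map fun x => cmpFold .eq x (bits k n)).count .gt =
        bs.countP fun x => decide (n + 1 ≤ val x) := by
      rw [List.count, List.countP_map]
      apply List.countP_congr
      intro x hx
      rw [Function.comp_apply, cmpFold_eq _ _ _ (by rw [hl x hx, bits_length]), val_bits k n hn]
      simp only [Ordering.then, beq_iff_eq, decide_eq_true_eq]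
      rw [Nat.compare_eq_gt]
      exact Iff.rfl
    have h3 : c n = (bs.countP fun x => decide (val x = n)) + c (n + 1) :=
      countP_split val n bs
    simp only [Bool.toNat_false, Bool.toNat_true, add_zero] at hcnt
    rw [h1, h2] at hcnt
    rw [h3, hcnt]
    simp only [c]
    omega
  have hd : ∀ j ≤ 2 ^ k, 2 ^ j ≤ c (2 ^ k - j) + 1 := by
    intro j
    induction j with
    | zero => intro _; simp
    | succ j ih =>
      intro hj
      have h1 := ih (by omega)
      have h2 := hc (2 ^ k - (j + 1)) (by omega)
      have h3 : 2 ^ k - (j + 1) + 1 = 2 ^ k - j := by omega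
      rw [h3] at h2
      rw [h2, pow_succ]
      omega
  have h4 := hd (2 ^ k) le_rfl
  have h5 : c (2 ^ k - 2 ^ k) ≤ bs.length := List.countP_le_length
  omega

/-- Zimin words over the numbers below `v`. -/
def zimin : ℕ → List ℕ
  | 0 => []
  | v + 1 => zimin v ++ v :: zimin v

theorem mem_zimin {v x : ℕ} (h : x ∈ zimin v) : x < v := by
  induction v with
  | zero => simp [zimin] at h
  | succ v ih =>
    simp only [zimin, List.mem_append, List.mem_cons] at h
    rcases h with h | h | h
    · exact (ih h).trans (Nat.lt_succ_self v)
    · omega
    · exact (ih h).trans (Nat.lt_succ_self v)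

theorem run_zimin_small (n v : ℕ) (hv : v ≤ n) (s : Bool) :
    run s ((zimin v).map fun x => compare x n) = some s := by
  induction v generalizing s with
  | zero => rfl
  | succ v ih =>
    have h1 : compare v n = Ordering.lt := Nat.compare_eq_lt.2 (by omega)
    simp only [zimin, List.map_append, List.map_cons, run_append, ih (by omega) s,
      Option.bind_some, run, h1]
    have h2 : mon s .lt = some s := by cases s <;> rfl
    rw [h2, Option.bind_some, ih (by omega)]

theorem run_zimin (n v : ℕ) (hv : n < v) :
    run false ((zimin v).map fun x => compare x n) = some true := by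
  induction v with
  | zero => omega
  | succ v ih =>
    rcases Nat.lt_or_ge n v with h | h
    · have h1 : compare v n = Ordering.gt := Nat.compare_eq_gt.2 h
      simp only [zimin, List.map_append, List.map_cons, run_append, ih h,
        Option.bind_some, run, h1, mon]
    · obtain rfl : n = v := by omega
      have h1 : compare n n = Ordering.eq := Nat.compare_eq_eq.2 rfl
      simp only [zimin, List.map_append, List.map_cons, run_append,
        run_zimin_small n n le_rfl, Option.bind_some, run, h1, mon]

/-- The later blocks of the accepted word with blocks of length `k`. -/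
def blocks (k : ℕ) : List (List Bool) := (zimin (2 ^ k)).map (bits k)

theorem blocks_spec (k : ℕ) (v : List Bool) (hv : v.length = k) :
    (∀ x ∈ blocks k, x.length = v.length) ∧
      run false ((blocks k).map fun x => cmpFold .eq x v) = some true := by
  constructor
  · intro x hx
    obtain ⟨n, -, rfl⟩ := List.mem_map.1 hx
    rw [bits_length, hv]
  · have h1 := run_zimin (val v) (2 ^ k) (by rw [← hv]; exact val_lt v)
    rw [← h1]
    congr 1
    rw [blocks, List.map_map]
    apply List.map_congr_left
    intro n hn
    rw [Function.comp_apply, cmpFold_eq _ _ _ (by rw [bits_length, hv]),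
      val_bits k n (mem_zimin hn)]
    rfl

theorem blocks_ne (k : ℕ) : blocks k ≠ [] := by
  intro h
  have h1 := (blocks_spec k (List.replicate k false) (by simp)).2
  rw [h] at h1
  simp [run] at h1

theorem z_mem (k k' : ℕ) :
    enc [List.replicate k true] ++ enc (blocks k') ∈ zMachine.language ↔ k = k' := by
  have he : enc [List.replicate k true] ++ enc (blocks k') =
      enc (List.replicate k true :: blocks k') := by
    simp [enc]
  rw [he, z_language]
  constructor
  · rintro ⟨b, bs, hb, h⟩
    have h1 := enc_injective _ _ hb
    rw [List.cons.injEq] at h1
    obtain ⟨rfl, rfl⟩ := h1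
    have h2 := (h (List.replicate k true) rfl).1
    obtain ⟨x, hx⟩ := List.exists_mem_of_ne_nil _ (blocks_ne k')
    have h3 := h2 x hx
    have h4 := (blocks_spec k' (List.replicate k' true) (by simp)).1 x hx
    rw [h3] at h4
    simpa using h4
  · rintro rfl
    exact ⟨_, _, rfl, fun v hv => blocks_spec k v (by simpa using hv)⟩

theorem z_nonregular : ¬ zMachine.language.IsRegular := by
  intro h
  have hfin := h.finite_range_leftQuotient
  have hinj : Function.Injective
      fun k : ℕ => zMachine.language.leftQuotient (enc [List.replicate k true]) := by
    intro i j hij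
    have h1 : enc (blocks j) ∈ zMachine.language.leftQuotient (enc [List.replicate j true]) :=
      (z_mem j j).2 rfl
    have hij' : zMachine.language.leftQuotient (enc [List.replicate i true]) =
      zMachine.language.leftQuotient (enc [List.replicate j true]) := hij
    rw [← hij'] at h1
    exact (z_mem i j).1 h1
  exact Set.infinite_of_injective_forall_mem hinj (fun i => Set.mem_range_self _) hfin

/-- Heights never exceed the length of the first block. -/
theorem z_height {w : List Letter} {b : List Bool} {rest' : List Letter} (hw : Block w b rest')
    {C : zMachine.Config} (h : zMachine.Reach w C) :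
    (C.state = .init ∧ ∃ b', Block C.rest b' rest' ∧ C.stack.length + b'.length = b.length) ∨
      (C.state ≠ .init ∧ C.stack.length ≤ b.length) := by
  induction h with
  | refl => exact Or.inl ⟨rfl, b, hw, by simp [Machine.init]⟩
  | @tail C D _ hs ih =>
    obtain ⟨mv, op, hm, ha, hb⟩ := hs
    obtain ⟨cq, cr, cs⟩ := C
    obtain ⟨dq, dr, ds⟩ := D
    simp only at ih hm ha hb ⊢
    have hm' : (dq, op, mv) ∈ zMoves cq cr.head? cs.head? := hm
    rcases ih with ⟨h1, b', hb', hl⟩ | ⟨h1, hl⟩
    · subst h1
      cases b' with
      | nil =>
        right
        unfold Block at hb'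
        simp only [List.map_nil, List.nil_append] at hb'
        rw [hb'] at hm'
        simp only [zMoves, List.head?_cons, Set.mem_singleton_iff, Prod.mk.injEq] at hm'
        obtain ⟨rfl, rfl, rfl⟩ := hm'
        simp only [StackOp.apply, Option.some.injEq] at ha
        subst ha
        simp only [List.length_nil] at hl
        exact ⟨by simp, by omega⟩
      | cons x b' =>
        left
        unfold Block at hb'
        simp only [List.map_cons, List.cons_append] at hb'
        rw [hb'] at hm' hb
        simp only [zMoves, List.head?_cons, Set.mem_insert_iff, Set.mem_singleton_iff,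
          Prod.mk.injEq] at hm'
        simp only [List.length_cons] at hl
        rcases hm' with ⟨rfl, rfl, rfl⟩ | ⟨rfl, rfl, rfl⟩ <;>
        · simp only [StackOp.apply, Option.some.injEq] at ha
          simp only [if_true, List.cons.injEq] at hb
          obtain ⟨a, -, hb⟩ := hb
          subst ha hb
          exact ⟨rfl, b', rfl, by simp only [List.length_cons]; omega⟩
    · right
      have hop : dq ≠ .init ∧ (op = .keep ∨ op = .pop) := by
        cases cq with
        | init => exact absurd rfl h1
        | main s =>
          cases hr : cr.head? with
          | none => rw [hr] at hm'; simp [zMoves] at hm'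
          | some a =>
            rw [hr] at hm'
            simp only [zMoves, Set.mem_ofPred_eq, Prod.mk.injEq] at hm'
            obtain ⟨c, s', _, rfl, rfl, _⟩ := hm'
            simp
        | split c s =>
          cases hr : cr.head? with
          | none => rw [hr] at hm'; simp [zMoves] at hm'
          | some a =>
            rw [hr] at hm'
            simp only [zMoves, Set.mem_insert_iff, Set.mem_singleton_iff, Prod.mk.injEq] at hm'
            rcases hm' with ⟨rfl, rfl, _⟩ | ⟨rfl, rfl, _⟩ <;> simp
        | skip s =>
          rcases hr : cr.head? with _ | _ | _ <;> rw [hr] at hm' <;> simp [zMoves] at hm' <;>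
            (obtain ⟨rfl, rfl, _⟩ := hm'; simp)
        | verify c r =>
          rcases hr : cr.head? with _ | _ | _ <;> cases ht : cs.head? <;>
            rw [hr, ht] at hm' <;> simp [zMoves] at hm' <;> simp [hm']
        | done =>
          rcases hr : cr.head? with _ | _ | _ <;> rw [hr] at hm' <;> simp [zMoves] at hm' <;>
            (obtain ⟨rfl, rfl, _⟩ := hm'; simp)
      refine ⟨hop.1, ?_⟩
      rcases hop.2 with rfl | rfl
      · simp only [StackOp.apply, Option.some.injEq] at ha
        rw [← ha]
        exact hl
      · cases cs with
        | nil => simp [StackOp.apply] at ha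
        | cons c cs =>
          simp only [StackOp.apply, Option.some.injEq] at ha
          rw [← ha]
          simp only [List.length_cons] at hl
          omega

theorem z_height_le {w : List Letter} (hw : w ∈ zMachine.language) {C : zMachine.Config}
    (h : zMachine.Reach w C) : 2 ^ 2 ^ C.stack.length ≤ w.length := by
  obtain ⟨b, bs, rfl, hbs⟩ := (z_language w).1 hw
  have h1 : C.stack.length ≤ b.length := by
    rcases z_height (b := b) (rest' := enc bs) rfl h with ⟨-, b', -, h2⟩ | ⟨-, h2⟩ <;> omega
  have h2 := many_blocks b.length bs (fun v hv => hbs v hv)
  have h3 := length_enc (b :: bs)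
  simp only [List.length_cons] at h3
  calc 2 ^ 2 ^ C.stack.length ≤ 2 ^ 2 ^ b.length :=
        Nat.pow_le_pow_right (by norm_num) (Nat.pow_le_pow_right (by norm_num) h1)
    _ ≤ bs.length + 1 := h2
    _ ≤ _ := h3

/-- The space bound of the machine. -/
noncomputable def zBound (n : ℕ) : ℝ :=
  Real.log (Real.log n / Real.log 2) / Real.log 2

theorem z_middle : zMachine.MiddleBound zBound := by
  intro w hw C hC
  have h := z_height_le hw hC
  set k := C.stack.length
  set n := w.length
  have hl2 : 0 < Real.log 2 := Real.log_pos (by norm_num)
  have h1 : ((2 : ℝ) ^ (2 ^ k)) ≤ n := by exact_mod_cast h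
  have h2 : ((2 : ℝ) ^ k) * Real.log 2 ≤ Real.log n := by
    have := Real.log_le_log (by positivity) h1
    rw [Real.log_pow] at this
    exact_mod_cast this
  have h3 : ((2 : ℝ) ^ k) ≤ Real.log n / Real.log 2 := by
    rw [le_div_iff₀ hl2]
    exact h2
  have h4 : (k : ℝ) * Real.log 2 ≤ Real.log (Real.log n / Real.log 2) := by
    have := Real.log_le_log (by positivity) h3
    rwa [Real.log_pow] at this
  rw [zBound, le_div_iff₀ hl2]
  exact h4

theorem tendsto_loglog :
    Tendsto (fun n : ℕ => Real.log (Real.log (n : ℝ))) atTop atTop :=
  Real.tendsto_log_atTop.comp (Real.tendsto_log_atTop.comp tendsto_natCast_atTop_atTop)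

theorem z_isBigO : zBound =O[atTop] fun n : ℕ => Real.log (Real.log (n : ℝ)) := by
  have h1 : (fun _ : ℕ => Real.log (Real.log 2)) =O[atTop]
      fun n : ℕ => Real.log (Real.log (n : ℝ)) := by
    refine (isLittleO_const_left.2 (Or.inr ?_)).isBigO
    exact tendsto_norm_atTop_atTop.comp tendsto_loglog
  have h2 : (fun n : ℕ => Real.log (Real.log (n : ℝ)) - Real.log (Real.log 2)) =O[atTop]
      fun n : ℕ => Real.log (Real.log (n : ℝ)) := (isBigO_refl _ _).sub h1
  have h3 := h2.const_mul_left (1 / Real.log 2)
  refine IsBigO.congr' h3 ?_ EventuallyEq.rfl
  filter_upwards [eventually_ge_atTop 2] with n hn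
  have hl2 : 0 < Real.log 2 := Real.log_pos (by norm_num)
  have hn2 : (2 : ℝ) ≤ n := by exact_mod_cast hn
  have hln : 0 < Real.log n := Real.log_pos (by linarith)
  rw [zBound, Real.log_div hln.ne' hl2.ne']
  ring

end Pool.Agent.Lib.P300f36
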