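import Pool.Agent.Lib.P300f36.Model

/-!
# A realtime alternating pushdown automaton with doubly logarithmic middle space

Words are sequences of blocks of bits, each ended by a separator.  The machine universally
guesses a string `v` of the length of the first block and then checks that the sequence of
comparisons of the later blocks with `v`, with the results `<` left out, has the form
`= > = > ... =`.
-/

namespace Pool.Agent.Lib.P300f36

/-- The input alphabet: two bits and a separator. -/
inductive Letter where
  | bit (b : Bool)
  | sep
  deriving DecidableEq

instance : Finite Letter :=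
  Finite.of_surjective (fun i : Option Bool => match i with
    | some b => Letter.bit b
    | none => Letter.sep) (by
      intro x
      cases x with
      | bit b => exact ⟨some b, rfl⟩
      | sep => exact ⟨none, rfl⟩)

instance : Finite Ordering :=
  Finite.of_surjective (fun i : Fin 3 => if i = 0 then Ordering.lt else
    if i = 1 then Ordering.eq else Ordering.gt) (by
      intro x
      cases x
      · exact ⟨0, rfl⟩
      · exact ⟨1, rfl⟩
      · exact ⟨2, rfl⟩)

/-- The states of the machine. -/
inductive ZState where
  | init
  | main (s : Bool)
  | split (c : Ordering) (s : Bool)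
  | skip (s : Bool)
  | verify (c r : Ordering)
  | done
  deriving DecidableEq

instance : Finite ZState :=
  Finite.of_surjective (fun i : Option (Option (Bool ⊕ (Ordering × Bool) ⊕ Bool ⊕
      (Ordering × Ordering))) => match i with
    | none => ZState.init
    | some none => ZState.done
    | some (some (.inl s)) => ZState.main s
    | some (some (.inr (.inl (c, s)))) => ZState.split c s
    | some (some (.inr (.inr (.inl s)))) => ZState.skip s
    | some (some (.inr (.inr (.inr (c, r))))) => ZState.verify c r) (by
      intro x
      cases x with
      | init => exact ⟨none, rfl⟩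
      | main s => exact ⟨some (some (.inl s)), rfl⟩
      | split c s => exact ⟨some (some (.inr (.inl (c, s)))), rfl⟩
      | skip s => exact ⟨some (some (.inr (.inr (.inl s)))), rfl⟩
      | verify c r => exact ⟨some (some (.inr (.inr (.inr (c, r))))), rfl⟩
      | done => exact ⟨some none, rfl⟩)

/-- The monitor: in state `false` it waits for `=`, in state `true` for `>`. -/
def mon : Bool → Ordering → Option Bool
  | s, .lt => some s
  | false, .eq => some true
  | true, .gt => some false
  | _, _ => none

/-- The moves of the machine. -/
def zMoves : ZState → Option Letter → Option Bool → Set (ZState × StackOp Bool × Bool)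
  | .init, some (.bit _), _ => {(.init, .push false, true), (.init, .push true, true)}
  | .init, some .sep, _ => {(.main false, .keep, true)}
  | .main s, some _, _ => {m | ∃ c s', mon s c = some s' ∧ m = (.split c s', .keep, false)}
  | .split c s, some _, _ => {(.verify c .eq, .keep, false), (.skip s, .keep, false)}
  | .skip s, some (.bit _), _ => {(.skip s, .keep, true)}
  | .skip s, some .sep, _ => {(.main s, .keep, true)}
  | .verify c r, some (.bit b), some t => {(.verify c (r.then (compare b t)), .pop, true)}
  | .verify c r, some .sep, none => {m | r = c ∧ m = (.done, .keep, true)}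
  | .done, some _, _ => {(.done, .keep, true)}
  | _, _, _ => ∅

/-- The universal states. -/
def zUniv : ZState → Prop
  | .init => True
  | .split _ _ => True
  | _ => False

/-- The accepting states. -/
def zAccept : ZState → Prop
  | .main s => s = true
  | .done => True
  | _ => False

/-- The machine. -/
abbrev zMachine : Machine Letter where
  State := ZState
  Sym := Bool
  finState := inferInstance
  finSym := inferInstance
  start := .init
  univ := zUniv
  accept := zAccept
  moves := zMoves

open Machine

theorem z_stay {q q' : ZState} {a : Option Letter} {t : Option Bool} {op : StackOp Bool}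
    (h : (q', op, false) ∈ zMoves q a t) :
    (∃ s c s', q = .main s ∧ q' = .split c s') ∨
    (∃ c s, q = .split c s ∧ (q' = .verify c .eq ∨ q' = .skip s)) := by
  cases q with
  | init => rcases a with _ | _ | _ <;> simp [zMoves] at h
  | main s =>
    left
    cases a with
    | none => simp [zMoves] at h
    | some a =>
      simp only [zMoves, Set.mem_ofPred_eq, Prod.mk.injEq] at h
      obtain ⟨c, s', _, h, _⟩ := h
      exact ⟨s, c, s', rfl, h⟩
  | split c s =>
    right
    cases a with
    | none => simp [zMoves] at h
    | some a =>
      simp only [zMoves, Set.mem_insert_iff, Set.mem_singleton_iff, Prod.mk.injEq] at h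
      rcases h with ⟨h, _⟩ | ⟨h, _⟩
      · exact ⟨c, s, rfl, Or.inl h⟩
      · exact ⟨c, s, rfl, Or.inr h⟩
  | skip s => rcases a with _ | _ | _ <;> simp [zMoves] at h
  | verify c r => rcases a with _ | _ | _ <;> cases t <;> simp [zMoves] at h
  | done => rcases a with _ | _ | _ <;> simp [zMoves] at h

theorem z_realtime : zMachine.Realtime := by
  refine ⟨2, fun w n C _ h => ?_⟩
  by_contra hn
  push Not at hn
  obtain ⟨op, h0, -, -⟩ := h 0 (by omega)
  obtain ⟨op', h1, -, -⟩ := h 1 (by omega)
  obtain ⟨op'', h2, -, -⟩ := h 2 (by omega)
  have g0 := z_stay h0
  have g1 := z_stay h1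
  have g2 := z_stay h2
  simp only [zero_add] at g0
  rcases g1 with ⟨s, c, s', e1, e2⟩ | ⟨c, s, e1, e2⟩
  · rcases g0 with ⟨t, d, t', f1, f2⟩ | ⟨d, t, f1, f2⟩
    · rw [f2] at e1; simp at e1
    · rcases f2 with f2 | f2 <;> (rw [f2] at e1; simp at e1)
  · rcases g2 with ⟨t, d, t', f1, f2⟩ | ⟨d, t, f1, f2⟩
    · rcases e2 with e2 | e2 <;>
      · have := e2.symm.trans f1
        simp at this
    · rcases e2 with e2 | e2 <;>
      · have := e2.symm.trans f1
        simp at this

/-- Splitting a block off. -/
def Block (rest : List Letter) (b : List Bool) (rest' : List Letter) : Prop :=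
  rest = b.map Letter.bit ++ Letter.sep :: rest'

theorem Block.unique {r : List Letter} {b b' : List Bool} {r1 r1' : List Letter}
    (h : Block r b r1) (h' : Block r b' r1') : b = b' ∧ r1 = r1' := by
  unfold Block at h h'
  rw [h] at h'
  clear h
  induction b generalizing b' with
  | nil =>
    cases b' with
    | nil => simpa using h'
    | cons c b' => simp at h'
  | cons a b ih =>
    cases b' with
    | nil => simp at h'
    | cons c b' =>
      simp only [List.map_cons, List.cons_append, List.cons.injEq, Letter.bit.injEq] at h' ⊢
      obtain ⟨h1, h2⟩ := ih h'.2
      exact ⟨⟨h'.1, h1⟩, h2⟩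

/-- Comparison of two strings, with a previous result. -/
def cmpFold : Ordering → List Bool → List Bool → Ordering
  | r, b :: bs, t :: ts => cmpFold (r.then (compare b t)) bs ts
  | r, _, _ => r

theorem z_done (rest : List Letter) (α : List Bool) :
    zMachine.Accepting ⟨.done, rest, α⟩ := by
  induction rest with
  | nil => exact .leaf trivial rfl
  | cons a rest ih =>
    refine .exist (D := ⟨.done, rest, α⟩) (fun h => h) ⟨true, .keep, ?_, rfl, ?_⟩ ih
    · simp [zMoves]
    · simp

theorem z_verify (c r : Ordering) (rest : List Letter) (u : List Bool) :
    zMachine.Accepting ⟨.verify c r, rest, u⟩ ↔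
      ∃ b rest', Block rest b rest' ∧ b.length = u.length ∧ cmpFold r b u = c := by
  induction rest generalizing r u with
  | nil =>
    constructor
    · intro h
      cases h with
      | leaf h1 _ => exact absurd h1 (by simp [zAccept])
      | @exist _ D h1 h2 h3 =>
        obtain ⟨b, op, hm, ha, hb⟩ := h2
        cases u <;> exact absurd hm (by simp [zMoves])
      | all h1 _ _ => exact absurd h1 (by simp [zUniv])
    · rintro ⟨b, rest', hb, -, -⟩
      unfold Block at hb
      simp at hb
  | cons a rest ih =>
    cases a with
    | sep =>
      constructor
      · intro h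
        cases h with
        | leaf h1 _ => exact absurd h1 (by simp [zAccept])
        | @exist _ D h1 h2 h3 =>
          obtain ⟨b, op, hm, ha, hb⟩ := h2
          cases u with
          | nil =>
            simp only [zMoves, List.head?_cons, List.head?_nil, Set.mem_ofPred_eq] at hm
            exact ⟨[], rest, rfl, rfl, hm.1⟩
          | cons t u => exact absurd hm (by simp [zMoves])
        | all h1 _ _ => exact absurd h1 (by simp [zUniv])
      · rintro ⟨b, rest', hb, hl, hc⟩
        have hb0 : Block (Letter.sep :: rest) [] rest := rfl
        obtain ⟨rfl, rfl⟩ := hb.unique hb0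
        obtain rfl : u = [] := List.length_eq_zero_iff.1 hl.symm
        refine .exist (D := ⟨.done, rest', []⟩) (fun h => h) ⟨true, .keep, ?_, rfl, ?_⟩
          (z_done _ _)
        · simpa [zMoves, cmpFold] using hc
        · simp
    | bit x =>
      cases u with
      | nil =>
        constructor
        · intro h
          cases h with
          | leaf h1 _ => exact absurd h1 (by simp [zAccept])
          | @exist _ D h1 h2 h3 =>
            obtain ⟨b, op, hm, ha, hb⟩ := h2
            exact absurd hm (by simp [zMoves])
          | all h1 _ _ => exact absurd h1 (by simp [zUniv])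
        · rintro ⟨b, rest', hb, hl, hc⟩
          obtain rfl : b = [] := List.length_eq_zero_iff.1 hl
          unfold Block at hb
          simp at hb
      | cons t u =>
        have hkey : zMachine.Accepting ⟨.verify c r, .bit x :: rest, t :: u⟩ ↔
            zMachine.Accepting ⟨.verify c (r.then (compare x t)), rest, u⟩ := by
          constructor
          · intro h
            cases h with
            | leaf h1 _ => exact absurd h1 (by simp [zAccept])
            | @exist _ D h1 h2 h3 =>
              obtain ⟨b, op, hm, ha, hb⟩ := h2
              obtain ⟨dq, dr, ds⟩ := D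
              simp only [zMoves, List.head?_cons, Set.mem_singleton_iff, Prod.mk.injEq] at hm
              obtain ⟨rfl, rfl, rfl⟩ := hm
              simp only [StackOp.apply, Option.some.injEq] at ha
              simp only [if_true, List.cons.injEq] at hb
              obtain ⟨a, -, hb⟩ := hb
              subst ha hb
              exact h3
            | all h1 _ _ => exact absurd h1 (by simp [zUniv])
          · intro h
            refine .exist (D := ⟨.verify c (r.then (compare x t)), rest, u⟩) (fun h => h)
              ⟨true, .pop, ?_, rfl, ?_⟩ h
            · simp [zMoves]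
            · simp
        rw [hkey, ih]
        constructor
        · rintro ⟨b, rest', hb, hl, hc⟩
          exact ⟨x :: b, rest', by unfold Block at hb ⊢; rw [hb]; rfl, by simp [hl], hc⟩
        · rintro ⟨b, rest', hb, hl, hc⟩
          cases b with
          | nil => simp at hl
          | cons y b =>
            unfold Block at hb
            simp only [List.map_cons, List.cons_append, List.cons.injEq, Letter.bit.injEq] at hb
            obtain ⟨rfl, hb⟩ := hb
            exact ⟨b, rest', hb, by simpa using hl, hc⟩

theorem z_skip (s : Bool) (rest : List Letter) (u : List Bool) :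
    zMachine.Accepting ⟨.skip s, rest, u⟩ ↔
      ∃ b rest', Block rest b rest' ∧ zMachine.Accepting ⟨.main s, rest', u⟩ := by
  induction rest with
  | nil =>
    constructor
    · intro h
      cases h with
      | leaf h1 _ => exact absurd h1 (by simp [zAccept])
      | @exist _ D h1 h2 h3 =>
        obtain ⟨b, op, hm, ha, hb⟩ := h2
        exact absurd hm (by simp [zMoves])
      | all h1 _ _ => exact absurd h1 (by simp [zUniv])
    · rintro ⟨b, rest', hb, -⟩
      unfold Block at hb
      simp at hb
  | cons a rest ih =>
    cases a with
    | sep =>
      constructor
      · intro h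
        cases h with
        | leaf h1 _ => exact absurd h1 (by simp [zAccept])
        | @exist _ D h1 h2 h3 =>
          obtain ⟨b, op, hm, ha, hb⟩ := h2
          obtain ⟨dq, dr, ds⟩ := D
          simp only [zMoves, List.head?_cons, Set.mem_singleton_iff, Prod.mk.injEq] at hm
          obtain ⟨rfl, rfl, rfl⟩ := hm
          simp only [StackOp.apply, Option.some.injEq] at ha
          simp only [if_true, List.cons.injEq] at hb
          obtain ⟨a, -, hb⟩ := hb
          subst ha hb
          exact ⟨[], rest, rfl, h3⟩
        | all h1 _ _ => exact absurd h1 (by simp [zUniv])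
      · rintro ⟨b, rest', hb, h⟩
        have hb0 : Block (Letter.sep :: rest) [] rest := rfl
        obtain ⟨rfl, rfl⟩ := hb.unique hb0
        refine .exist (D := ⟨.main s, rest', u⟩) (fun h => h) ⟨true, .keep, ?_, rfl, ?_⟩ h
        · simp [zMoves]
        · simp
    | bit x =>
      have hkey : zMachine.Accepting ⟨.skip s, .bit x :: rest, u⟩ ↔
          zMachine.Accepting ⟨.skip s, rest, u⟩ := by
        constructor
        · intro h
          cases h with
          | leaf h1 _ => exact absurd h1 (by simp [zAccept])
          | @exist _ D h1 h2 h3 =>
            obtain ⟨b, op, hm, ha, hb⟩ := h2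
            obtain ⟨dq, dr, ds⟩ := D
            simp only [zMoves, List.head?_cons, Set.mem_singleton_iff, Prod.mk.injEq] at hm
            obtain ⟨rfl, rfl, rfl⟩ := hm
            simp only [StackOp.apply, Option.some.injEq] at ha
            simp only [if_true, List.cons.injEq] at hb
            obtain ⟨a, -, hb⟩ := hb
            subst ha hb
            exact h3
          | all h1 _ _ => exact absurd h1 (by simp [zUniv])
        · intro h
          refine .exist (D := ⟨.skip s, rest, u⟩) (fun h => h) ⟨true, .keep, ?_, rfl, ?_⟩ h
          · simp [zMoves]
          · simp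
      rw [hkey, ih]
      constructor
      · rintro ⟨b, rest', hb, h⟩
        exact ⟨x :: b, rest', by unfold Block at hb ⊢; rw [hb]; rfl, h⟩
      · rintro ⟨b, rest', hb, h⟩
        cases b with
        | nil => unfold Block at hb; simp at hb
        | cons y b =>
          unfold Block at hb
          simp only [List.map_cons, List.cons_append, List.cons.injEq, Letter.bit.injEq] at hb
          exact ⟨b, rest', hb.2, h⟩

theorem z_main_cons (s : Bool) (a : Letter) (rest : List Letter) (u : List Bool) :
    zMachine.Accepting ⟨.main s, a :: rest, u⟩ ↔
      ∃ b rest' s', Block (a :: rest) b rest' ∧ b.length = u.length ∧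
        mon s (cmpFold .eq b u) = some s' ∧ zMachine.Accepting ⟨.main s', rest', u⟩ := by
  constructor
  · intro h
    cases h with
    | leaf _ h2 => simp at h2
    | @exist _ D h1 h2 h3 =>
      obtain ⟨b, op, hm, ha, hb⟩ := h2
      obtain ⟨dq, dr, ds⟩ := D
      simp only [zMoves, List.head?_cons, Set.mem_ofPred_eq, Prod.mk.injEq] at hm
      obtain ⟨c, s', hc, rfl, rfl, rfl⟩ := hm
      simp only [StackOp.apply, Option.some.injEq] at ha
      simp only [Bool.false_eq_true, if_false] at hb
      subst ha hb
      -- the universal state
      have hv : zMachine.Accepting ⟨.verify c .eq, a :: rest, u⟩ ∧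
          zMachine.Accepting ⟨.skip s', a :: rest, u⟩ := by
        cases h3 with
        | leaf _ h2 => simp at h2
        | exist h1 _ _ => exact absurd trivial h1
        | all _ _ h3 =>
          constructor
          · apply h3
            exact ⟨false, .keep, by simp [zMoves], rfl, by simp⟩
          · apply h3
            exact ⟨false, .keep, by simp [zMoves], rfl, by simp⟩
      obtain ⟨b, rest', hb, hl, hc'⟩ := (z_verify _ _ _ _).1 hv.1
      obtain ⟨b', rest'', hb', hA⟩ := (z_skip _ _ _).1 hv.2
      obtain ⟨rfl, rfl⟩ := hb.unique hb'
      exact ⟨b, rest', s', hb, hl, by rw [hc', hc], hA⟩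
    | all h1 _ _ => exact absurd h1 (by simp [zUniv])
  · rintro ⟨b, rest', s', hb, hl, hc, hA⟩
    refine .exist (D := ⟨.split (cmpFold .eq b u) s', a :: rest, u⟩) (fun h => h)
      ⟨false, .keep, ?_, rfl, by simp⟩ ?_
    · simp only [zMoves, List.head?_cons, Set.mem_ofPred_eq]
      exact ⟨_, _, hc, rfl⟩
    · have h1 : zMachine.Accepting ⟨.verify (cmpFold .eq b u) .eq, a :: rest, u⟩ :=
        (z_verify _ _ _ _).2 ⟨b, rest', hb, hl, rfl⟩
      have h2 : zMachine.Accepting ⟨.skip s', a :: rest, u⟩ :=
        (z_skip _ _ _).2 ⟨b, rest', hb, hA⟩
      refine .all trivial ⟨⟨.skip s', a :: rest, u⟩, false, .keep, by simp [zMoves], rfl,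
        by simp⟩ ?_
      rintro ⟨dq, dr, ds⟩ ⟨b', op, hm, ha, hb'⟩
      simp only [zMoves, List.head?_cons, Set.mem_insert_iff, Set.mem_singleton_iff,
        Prod.mk.injEq] at hm
      rcases hm with ⟨rfl, rfl, rfl⟩ | ⟨rfl, rfl, rfl⟩
      · simp only [StackOp.apply, Option.some.injEq] at ha
        simp only [Bool.false_eq_true, if_false] at hb'
        subst ha hb'
        exact h1
      · simp only [StackOp.apply, Option.some.injEq] at ha
        simp only [Bool.false_eq_true, if_false] at hb'
        subst ha hb'
        exact h2

theorem z_main_nil (s : Bool) (u : List Bool) :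
    zMachine.Accepting ⟨.main s, [], u⟩ ↔ s = true := by
  constructor
  · intro h
    cases h with
    | leaf h1 _ => exact h1
    | @exist _ D h1 h2 h3 =>
      obtain ⟨b, op, hm, ha, hb⟩ := h2
      exact absurd hm (by simp [zMoves])
    | all h1 _ _ => exact absurd h1 (by simp [zUniv])
  · intro h
    exact .leaf h rfl

theorem z_init (rest : List Letter) (α : List Bool) :
    zMachine.Accepting ⟨.init, rest, α⟩ ↔
      ∃ b rest', Block rest b rest' ∧
        ∀ v : List Bool, v.length = b.length →
          zMachine.Accepting ⟨.main false, rest', v ++ α⟩ := by
  induction rest generalizing α with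
  | nil =>
    constructor
    · intro h
      cases h with
      | leaf h1 _ => exact absurd h1 (by simp [zAccept])
      | exist h1 _ _ => exact absurd trivial h1
      | all _ h2 _ =>
        obtain ⟨D, b, op, hm, ha, hb⟩ := h2
        exact absurd hm (by simp [zMoves])
    · rintro ⟨b, rest', hb, -⟩
      unfold Block at hb
      simp at hb
  | cons a rest ih =>
    cases a with
    | sep =>
      have hkey : zMachine.Accepting ⟨.init, .sep :: rest, α⟩ ↔
          zMachine.Accepting ⟨.main false, rest, α⟩ := by
        constructor
        · intro h
          cases h with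
          | leaf h1 _ => exact absurd h1 (by simp [zAccept])
          | exist h1 _ _ => exact absurd trivial h1
          | all _ _ h3 =>
            apply h3
            exact ⟨true, .keep, by simp [zMoves], rfl, by simp⟩
        · intro h
          refine .all trivial ⟨⟨.main false, rest, α⟩, true, .keep, by simp [zMoves], rfl,
            by simp⟩ ?_
          rintro ⟨dq, dr, ds⟩ ⟨b', op, hm, ha, hb'⟩
          simp only [zMoves, List.head?_cons, Set.mem_singleton_iff, Prod.mk.injEq] at hm
          obtain ⟨rfl, rfl, rfl⟩ := hm
          simp only [StackOp.apply, Option.some.injEq] at ha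
          simp only [if_true, List.cons.injEq] at hb'
          obtain ⟨a, -, hb'⟩ := hb'
          subst ha hb'
          exact h
      rw [hkey]
      constructor
      · intro h
        refine ⟨[], rest, rfl, fun v hv => ?_⟩
        obtain rfl : v = [] := List.length_eq_zero_iff.1 hv
        exact h
      · rintro ⟨b, rest', hb, h⟩
        have hb0 : Block (Letter.sep :: rest) [] rest := rfl
        obtain ⟨rfl, rfl⟩ := hb.unique hb0
        exact h [] rfl
    | bit x =>
      have hkey : zMachine.Accepting ⟨.init, .bit x :: rest, α⟩ ↔
          ∀ y : Bool, zMachine.Accepting ⟨.init, rest, y :: α⟩ := by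
        constructor
        · intro h y
          cases h with
          | leaf h1 _ => exact absurd h1 (by simp [zAccept])
          | exist h1 _ _ => exact absurd trivial h1
          | all _ _ h3 =>
            apply h3
            refine ⟨true, .push y, ?_, rfl, by simp⟩
            cases y <;> simp [zMoves]
        · intro h
          refine .all trivial ⟨⟨.init, rest, false :: α⟩, true, .push false, by simp [zMoves],
            rfl, by simp⟩ ?_
          rintro ⟨dq, dr, ds⟩ ⟨b', op, hm, ha, hb'⟩
          simp only [zMoves, List.head?_cons, Set.mem_insert_iff, Set.mem_singleton_iff,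
            Prod.mk.injEq] at hm
          rcases hm with ⟨rfl, rfl, rfl⟩ | ⟨rfl, rfl, rfl⟩
          · simp only [StackOp.apply, Option.some.injEq] at ha
            simp only [if_true, List.cons.injEq] at hb'
            obtain ⟨a, -, hb'⟩ := hb'
            subst ha hb'
            exact h false
          · simp only [StackOp.apply, Option.some.injEq] at ha
            simp only [if_true, List.cons.injEq] at hb'
            obtain ⟨a, -, hb'⟩ := hb'
            subst ha hb'
            exact h true
      rw [hkey]
      constructor
      · intro h
        have h0 := (ih (false :: α)).1 (h false)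
        have h1 := (ih (true :: α)).1 (h true)
        obtain ⟨b, rest', hb, h0⟩ := h0
        obtain ⟨b', rest'', hb', h1⟩ := h1
        obtain ⟨rfl, rfl⟩ := hb.unique hb'
        refine ⟨x :: b, rest', by unfold Block at hb ⊢; rw [hb]; rfl, fun v hv => ?_⟩
        -- the last symbol of `v` was pushed first
        rcases List.eq_nil_or_concat v with rfl | ⟨v', y, rfl⟩
        · simp at hv
        · simp only [List.concat_eq_append, List.length_append, List.length_cons,
            List.length_nil, zero_add, Nat.add_right_cancel_iff] at hv
          rw [List.concat_eq_append, List.append_assoc, List.singleton_append]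
          cases y with
          | false => exact h0 v' hv
          | true => exact h1 v' hv
      · rintro ⟨b, rest', hb, h⟩ y
        cases b with
        | nil => unfold Block at hb; simp at hb
        | cons z b =>
          unfold Block at hb
          simp only [List.map_cons, List.cons_append, List.cons.injEq, Letter.bit.injEq] at hb
          refine (ih (y :: α)).2 ⟨b, rest', hb.2, fun v hv => ?_⟩
          have := h (v ++ [y]) (by simp [hv])
          rw [List.append_assoc, List.singleton_append] at this
          exact this

end Pool.Agent.Lib.P300f36
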